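import Pool.Agent.Work.MP_bec1e1_DEF_h67.H
import Pool.Agent.Work.MP_bec1e1_lv_helper15.Interface0
import Pool.Agent.Work.MP_bec1e1_E_helper47.CONV

/-!
# DEF in the form of the project `LCSV` (block DEF of helper15's interface)
-/

open Finset BigOperators Filter Topology

namespace Pool.Agent.LCSD

open Pool.Agent.LCS13 Pool.Agent.LCSE Pool.Agent.LCSV

noncomputable section

theorem L_eq_lcr {k m n : ℕ} [NeZero k] (x : Fin m → Fin k) (y : Fin n → Fin k) :
    (L (List.ofFn x) (List.ofFn y) : ℝ) = lcr x y 0 0 m n := by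
  unfold L
  exact sSup_eq_lcr x y

theorem F_eq_ph {k : ℕ} [NeZero k] (a b : ℕ) : F k a b = ph k a b := by
  unfold F ph EE
  rw [Ex_eq_sum, Fintype.expect_eq_sum_div_card, Fintype.card_fun, Fintype.card_fin,
    Fintype.card_fin]
  push_cast
  congr 1
  refine Finset.sum_congr rfl fun x _ => ?_
  rw [Ex_eq_sum, Fintype.expect_eq_sum_div_card, Fintype.card_fun, Fintype.card_fin,
    Fintype.card_fin]
  push_cast
  congr 1
  exact Finset.sum_congr rfl fun y _ => L_eq_lcr x y

theorem Phi_le_psi {k : ℕ} [NeZero k] (a b : ℕ) : Phi k a b ≤ psi k a b := by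
  unfold Phi
  refine ciSup_le fun n => ?_
  have h1 : ⌊((n : ℝ) + 1) * a⌋₊ = (n + 1) * a := by
    have : ((n : ℝ) + 1) * a = (((n + 1) * a : ℕ) : ℝ) := by push_cast; ring
    rw [this, Nat.floor_natCast]
  have h2 : ⌊((n : ℝ) + 1) * b⌋₊ = (n + 1) * b := by
    have : ((n : ℝ) + 1) * b = (((n + 1) * b : ℕ) : ℝ) := by push_cast; ring
    rw [this, Nat.floor_natCast]
  rw [h1, h2, F_eq_ph, div_le_iff₀ (by positivity)]
  have := ph_mul_le (k := k) a b (n + 1)
  push_cast at this
  linarith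

theorem stmt_DEF : Stmt_DEF := by
  intro k hk
  have : NeZero k := ⟨by omega⟩
  obtain ⟨C, hC0, hC⟩ := def_bound k
  refine ⟨C + 1, by linarith, fun a b => ?_⟩
  rw [F_eq_ph]
  have h1 := Phi_le_psi (k := k) a b
  have h2 := hC a b
  have h3 := Real.sqrt_nonneg ((a : ℝ) + b)
  linarith

end

end Pool.Agent.LCSD
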