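import Pool.Agent.Work.MP_bec1e1_pr_h13.EMAX
import Pool.Agent.Work.MP_bec1e1_pr_h13.CONC

/-!
# DEF, part A: expectations over two random words

`EE k R S F` is the expectation of `F x y` over uniform words `x` of length `R`, `y` of length `S`;
`ph k r c` is the expected length of the longest common subsequence of words of lengths `r`, `c`.
-/

open Finset BigOperators
open scoped Classical

namespace Pool.Agent.LCSD

open Pool.Agent.LCS13

noncomputable section

variable {k : ℕ}

/-- Expectation over two uniform words. -/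
def EE (k R S : ℕ) (F : (Fin R → Fin k) → (Fin S → Fin k) → ℝ) : ℝ :=
  𝔼 x : Fin R → Fin k, 𝔼 y : Fin S → Fin k, F x y

/-- Length of the longest common subsequence of the rows `i, …, i+r-1` and the columns
`j, …, j+c-1`. -/
def lcr {R S : ℕ} (x : Fin R → Fin k) (y : Fin S → Fin k) (i j r c : ℕ) : ℝ :=
  (lp (mt (wn x) (wn y)) i j r c : ℝ)

/-- Expected LCS of two uniform words. -/
def ph (k r c : ℕ) : ℝ := EE k r c fun x y => lcr x y 0 0 r c

theorem EE_add {R S : ℕ} (F G : (Fin R → Fin k) → (Fin S → Fin k) → ℝ) :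
    EE k R S (fun x y => F x y + G x y) = EE k R S F + EE k R S G := by
  unfold EE
  simp only [Finset.expect_add_distrib]

theorem EE_sub {R S : ℕ} (F G : (Fin R → Fin k) → (Fin S → Fin k) → ℝ) :
    EE k R S (fun x y => F x y - G x y) = EE k R S F - EE k R S G := by
  unfold EE
  simp only [Finset.expect_sub_distrib]

theorem EE_neg {R S : ℕ} (F : (Fin R → Fin k) → (Fin S → Fin k) → ℝ) :
    EE k R S (fun x y => - F x y) = - EE k R S F := by
  unfold EE
  simp only [Finset.expect_neg_distrib]

theorem EE_const_mul {R S : ℕ} (a : ℝ) (F : (Fin R → Fin k) → (Fin S → Fin k) → ℝ) :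
    EE k R S (fun x y => a * F x y) = a * EE k R S F := by
  unfold EE
  simp only [← Finset.mul_expect]

theorem EE_sum {R S : ℕ} {ι : Type*} (s : Finset ι) (F : ι → (Fin R → Fin k) → (Fin S → Fin k) → ℝ) :
    EE k R S (fun x y => ∑ i ∈ s, F i x y) = ∑ i ∈ s, EE k R S (F i) := by
  unfold EE
  simp only [Finset.expect_sum_comm]

theorem EE_mono {R S : ℕ} {F G : (Fin R → Fin k) → (Fin S → Fin k) → ℝ} (h : ∀ x y, F x y ≤ G x y) :
    EE k R S F ≤ EE k R S G :=
  Finset.expect_le_expect fun x _ => Finset.expect_le_expect fun y _ => h x y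

theorem EE_const [NeZero k] {R S : ℕ} (a : ℝ) : EE k R S (fun _ _ => a) = a := by
  unfold EE
  simp [Fintype.expect_const]

theorem EE_nonneg {R S : ℕ} {F : (Fin R → Fin k) → (Fin S → Fin k) → ℝ} (h : ∀ x y, 0 ≤ F x y) :
    0 ≤ EE k R S F :=
  Finset.expect_nonneg fun x _ => Finset.expect_nonneg fun y _ => h x y

/-- Transposition of the two words. -/
theorem EE_comm {R S : ℕ} (F : (Fin R → Fin k) → (Fin S → Fin k) → ℝ) :
    EE k R S F = EE k S R (fun y x => F x y) := by
  unfold EE
  exact Finset.expect_comm _ _ _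

/-- The law of the LCS in a rectangle depends on its sizes only. -/
theorem EE_rect [NeZero k] {R S i j r c : ℕ} (hi : i + r ≤ R) (hj : j + c ≤ S) (G : ℝ → ℝ) :
    EE k R S (fun x y => G (lcr x y i j r c)) = EE k r c (fun x y => G (lcr x y 0 0 r c)) := by
  unfold EE
  set ei : Fin r → Fin R := fun a => ⟨i + a, by omega⟩ with hei
  set ej : Fin c → Fin S := fun a => ⟨j + a, by omega⟩ with hej
  have hei' : Function.Injective ei := by
    intro a b h
    simp only [hei, Fin.mk.injEq] at h
    ext; omega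
  have hej' : Function.Injective ej := by
    intro a b h
    simp only [hej, Fin.mk.injEq] at h
    ext; omega
  have key : ∀ (x : Fin R → Fin k) (y : Fin S → Fin k),
      lcr x y i j r c = lcr (fun a => x (ei a)) (fun a => y (ej a)) 0 0 r c := by
    intro x y
    unfold lcr
    congr 1
    refine LPK.lp_congr fun a b ha hb => ?_
    unfold LCS13.mt wn
    rw [dif_pos (show i + a < R by omega), dif_pos (show j + b < S by omega),
      dif_pos (show 0 + a < r by omega), dif_pos (show 0 + b < c by omega)]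
    simp only [hei, hej, zero_add]
  have h1 : ∀ x : Fin R → Fin k, 𝔼 y : Fin S → Fin k, G (lcr x y i j r c) =
      𝔼 y : Fin c → Fin k, G (lcr (fun a => x (ei a)) y 0 0 r c) := by
    intro x
    rw [← expect_comp_inj ej hej' (fun y : Fin c → Fin k => G (lcr (fun a => x (ei a)) y 0 0 r c))]
    refine Finset.expect_congr rfl fun y _ => ?_
    rw [key]
  simp only [h1]
  exact expect_comp_inj ei hei' (fun x : Fin r → Fin k =>
    𝔼 y : Fin c → Fin k, G (lcr x y 0 0 r c))

theorem EE_lcr [NeZero k] {R S i j r c : ℕ} (hi : i + r ≤ R) (hj : j + c ≤ S) :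
    EE k R S (fun x y => lcr x y i j r c) = ph k r c :=
  EE_rect hi hj (fun t => t)

theorem lcr_nonneg {R S : ℕ} (x : Fin R → Fin k) (y : Fin S → Fin k) (i j r c : ℕ) :
    0 ≤ lcr x y i j r c := Nat.cast_nonneg _

theorem lcr_le_rows {R S : ℕ} (x : Fin R → Fin k) (y : Fin S → Fin k) (i j r c : ℕ) :
    lcr x y i j r c ≤ r := by
  unfold lcr
  exact_mod_cast LPK.lp_le_rows _ _ _ _ _

theorem lcr_le_cols {R S : ℕ} (x : Fin R → Fin k) (y : Fin S → Fin k) (i j r c : ℕ) :
    lcr x y i j r c ≤ c := by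
  unfold lcr
  exact_mod_cast LPK.lp_le_cols _ _ _ _ _

theorem ph_nonneg (r c : ℕ) : 0 ≤ ph k r c := EE_nonneg fun x y => lcr_nonneg x y _ _ _ _

theorem ph_le_rows [NeZero k] (r c : ℕ) : ph k r c ≤ r := by
  have h := EE_mono (k := k) (R := r) (S := c) (F := fun x y => lcr x y 0 0 r c)
    (G := fun _ _ => (r : ℝ)) (fun x y => lcr_le_rows x y _ _ _ _)
  rwa [EE_const] at h

theorem ph_le_cols [NeZero k] (r c : ℕ) : ph k r c ≤ c := by
  have h := EE_mono (k := k) (R := r) (S := c) (F := fun x y => lcr x y 0 0 r c)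
    (G := fun _ _ => (c : ℝ)) (fun x y => lcr_le_cols x y _ _ _ _)
  rwa [EE_const] at h

theorem mt_comm (a b : ℕ → Option ℕ) : (fun x y => mt a b y x) = mt b a := by
  funext x y
  unfold LCS13.mt
  apply propext
  constructor
  · rintro ⟨z, h1, h2⟩; exact ⟨z, h2, h1⟩
  · rintro ⟨z, h1, h2⟩; exact ⟨z, h2, h1⟩

theorem lcr_comm {R S : ℕ} (x : Fin R → Fin k) (y : Fin S → Fin k) (i j r c : ℕ) :
    lcr x y i j r c = lcr y x j i c r := by
  unfold lcr
  rw [← LPK.lp_transpose (m := mt (wn x) (wn y)), mt_comm]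

theorem ph_comm (r c : ℕ) : ph k r c = ph k c r := by
  unfold ph
  rw [EE_comm]
  congr 1
  funext x y
  exact lcr_comm _ _ _ _ _ _

theorem lcr_superadd {R S : ℕ} (x : Fin R → Fin k) (y : Fin S → Fin k) (i j r c r' c' : ℕ) :
    lcr x y i j r c + lcr x y (i + r) (j + c) r' c' ≤ lcr x y i j (r + r') (c + c') := by
  unfold lcr
  exact_mod_cast LPK.lp_superadd _ i j r c r' c'

theorem ph_superadd [NeZero k] (r c r' c' : ℕ) : ph k r c + ph k r' c' ≤ ph k (r + r') (c + c') := by
  have h := EE_mono (k := k) (R := r + r') (S := c + c')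
    (F := fun x y => lcr x y 0 0 r c + lcr x y (0 + r) (0 + c) r' c')
    (G := fun x y => lcr x y 0 0 (r + r') (c + c')) (fun x y => lcr_superadd x y _ _ _ _ _ _)
  rw [EE_add, EE_lcr (by omega) (by omega), EE_lcr (by omega) (by omega),
    EE_lcr (by omega) (by omega)] at h
  exact h

theorem lcr_mono {R S : ℕ} (x : Fin R → Fin k) (y : Fin S → Fin k) (i j : ℕ) {r c r' c' : ℕ}
    (hr : r ≤ r') (hc : c ≤ c') : lcr x y i j r c ≤ lcr x y i j r' c' := by
  unfold lcr
  exact_mod_cast LPK.lp_mono _ hr hc i j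

theorem ph_mono [NeZero k] {r c r' c' : ℕ} (hr : r ≤ r') (hc : c ≤ c') : ph k r c ≤ ph k r' c' := by
  have h := EE_mono (k := k) (R := r') (S := c')
    (F := fun x y => lcr x y 0 0 r c)
    (G := fun x y => lcr x y 0 0 r' c') (fun x y => lcr_mono x y _ _ hr hc)
  rw [EE_lcr (by omega) (by omega), EE_lcr (by omega) (by omega)] at h
  exact h

theorem ph_add_col_le [NeZero k] (r c d : ℕ) : ph k r (c + d) ≤ ph k r c + d := by
  have h := EE_mono (k := k) (R := r) (S := c + d)
    (F := fun x y => lcr x y 0 0 r (c + d))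
    (G := fun x y => lcr x y 0 0 r c + (d : ℝ)) (fun x y => by
      unfold lcr
      exact_mod_cast LPK.lp_add_col_le _ 0 0 r c d)
  rw [EE_add, EE_const, EE_lcr (by omega) (by omega), EE_lcr (by omega) (by omega)] at h
  exact h

theorem ph_add_row_le [NeZero k] (r d c : ℕ) : ph k (r + d) c ≤ ph k r c + d := by
  rw [ph_comm (r + d), ph_comm r]
  exact ph_add_col_le c r d

/-- Concavity in the number of columns. -/
theorem ph_conc [NeZero k] (r c : ℕ) : ph k r c + ph k r (c + 2) ≤ 2 * ph k r (c + 1) := by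
  have h := EE_mono (k := k) (R := r) (S := c + 2)
    (F := fun x y => lcr x y 0 0 r (c + 2) + lcr x y 0 1 r c)
    (G := fun x y => lcr x y 0 0 r (c + 1) + lcr x y 0 1 r (c + 1)) (fun x y => by
      have h1 := LPK.lp_monge (mt (wn x) (wn y)) 0 r 0 1 c 1
      rw [show 1 + c + 1 = c + 2 by ring, show 1 + c = c + 1 by ring, zero_add] at h1
      unfold lcr
      exact_mod_cast h1)
  rw [EE_add, EE_add, EE_lcr (by omega) (by omega), EE_lcr (by omega) (by omega),
    EE_lcr (by omega) (by omega), EE_lcr (by omega) (by omega)] at h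
  linarith

/-- Concavity, symmetric form. -/
theorem ph_conc_sym [NeZero k] (r c y : ℕ) (hy : y ≤ c) :
    ph k r (c - y) + ph k r (c + y) ≤ 2 * ph k r c := by
  -- increments decrease
  have hinc : ∀ a d : ℕ, ph k r (a + d + 1) - ph k r (a + d) ≤ ph k r (a + 1) - ph k r a := by
    intro a d
    induction d with
    | zero => simp
    | succ d ih =>
      have := ph_conc (k := k) r (a + d)
      rw [show a + d + 2 = a + (d + 1) + 1 by ring, show a + d + 1 = a + (d + 1) by ring] at this
      rw [show a + d + 1 = a + (d + 1) by ring] at ih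
      linarith
  induction y with
  | zero => simp; linarith
  | succ y ih =>
    have h1 := ih (by omega)
    have h2 := hinc (c - (y + 1)) (y + (y + 1))
    rw [show c - (y + 1) + (y + (y + 1)) + 1 = c + (y + 1) by omega,
      show c - (y + 1) + (y + (y + 1)) = c + y by omega,
      show c - (y + 1) + 1 = c - y by omega] at h2
    linarith

end

end Pool.Agent.LCSD
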