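import Pool.Agent.Work.MP_bec1e1_DEF_h67.A

/-!
# DEF, part B: Lipschitz functions of the letters, exponential moments
-/

open Finset BigOperators
open scoped Classical

namespace Pool.Agent.LCSD

open Pool.Agent.LCS13

noncomputable section

variable {k : ℕ}

/-- Changing one letter changes `F` by at most `c`. -/
def Lip {R S : ℕ} (F : (Fin R → Fin k) → (Fin S → Fin k) → ℝ) (c : ℝ) : Prop :=
  (∀ i x x' y, (∀ j, j ≠ i → x j = x' j) → |F x y - F x' y| ≤ c) ∧
  (∀ i x y y', (∀ j, j ≠ i → y j = y' j) → |F x y - F x y'| ≤ c)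

theorem Lip.add {R S : ℕ} {F G : (Fin R → Fin k) → (Fin S → Fin k) → ℝ} {c d : ℝ} (hF : Lip F c)
    (hG : Lip G d) : Lip (fun x y => F x y + G x y) (c + d) := by
  constructor
  · intro i x x' y h
    have h1 := abs_le.1 (hF.1 i x x' y h)
    have h2 := abs_le.1 (hG.1 i x x' y h)
    rw [abs_le]; constructor <;> linarith
  · intro i x y y' h
    have h1 := abs_le.1 (hF.2 i x y y' h)
    have h2 := abs_le.1 (hG.2 i x y y' h)
    rw [abs_le]; constructor <;> linarith

theorem Lip.sub {R S : ℕ} {F G : (Fin R → Fin k) → (Fin S → Fin k) → ℝ} {c d : ℝ} (hF : Lip F c)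
    (hG : Lip G d) : Lip (fun x y => F x y - G x y) (c + d) := by
  constructor
  · intro i x x' y h
    have h1 := abs_le.1 (hF.1 i x x' y h)
    have h2 := abs_le.1 (hG.1 i x x' y h)
    rw [abs_le]; constructor <;> linarith
  · intro i x y y' h
    have h1 := abs_le.1 (hF.2 i x y y' h)
    have h2 := abs_le.1 (hG.2 i x y y' h)
    rw [abs_le]; constructor <;> linarith

theorem Lip.const {R S : ℕ} (a : ℝ) :
    Lip (fun (_ : Fin R → Fin k) (_ : Fin S → Fin k) => a) 0 := by
  constructor <;> intros <;> simp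

theorem Lip.mul {R S : ℕ} {F : (Fin R → Fin k) → (Fin S → Fin k) → ℝ} {c : ℝ} (hF : Lip F c)
    (a : ℝ) : Lip (fun x y => a * F x y) (|a| * c) := by
  constructor
  · intro i x x' y h
    rw [← mul_sub, abs_mul]
    exact mul_le_mul_of_nonneg_left (hF.1 i x x' y h) (abs_nonneg _)
  · intro i x y y' h
    rw [← mul_sub, abs_mul]
    exact mul_le_mul_of_nonneg_left (hF.2 i x y y' h) (abs_nonneg _)

theorem Lip.const_sub {R S : ℕ} {F : (Fin R → Fin k) → (Fin S → Fin k) → ℝ} {c : ℝ} (hF : Lip F c)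
    (a : ℝ) : Lip (fun x y => a - F x y) c := by
  have := (Lip.const (k := k) (R := R) (S := S) a).sub hF
  rwa [zero_add] at this

theorem Lip.sup' {R S : ℕ} {ι : Type*} {s : Finset ι} (hs : s.Nonempty)
    {F : ι → (Fin R → Fin k) → (Fin S → Fin k) → ℝ} {c : ℝ} (hF : ∀ i ∈ s, Lip (F i) c) :
    Lip (fun x y => s.sup' hs fun i => F i x y) c := by
  have key : ∀ x y x' y', (∀ i ∈ s, |F i x y - F i x' y'| ≤ c) →
      |(s.sup' hs fun i => F i x y) - (s.sup' hs fun i => F i x' y')| ≤ c := by
    intro x y x' y' h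
    rw [abs_le]
    constructor
    · have : (s.sup' hs fun i => F i x' y') ≤ (s.sup' hs fun i => F i x y) + c := by
        refine Finset.sup'_le hs _ fun i hi => ?_
        have h1 := (abs_le.1 (h i hi)).1
        have h2 := Finset.le_sup' (fun i => F i x y) hi
        linarith
      linarith
    · have : (s.sup' hs fun i => F i x y) ≤ (s.sup' hs fun i => F i x' y') + c := by
        refine Finset.sup'_le hs _ fun i hi => ?_
        have h1 := (abs_le.1 (h i hi)).2
        have h2 := Finset.le_sup' (fun i => F i x' y') hi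
        linarith
      linarith
  constructor
  · intro i x x' y h
    exact key x y x' y fun a ha => (hF a ha).1 i x x' y h
  · intro i x y y' h
    exact key x y x y' fun a ha => (hF a ha).2 i x y y' h

theorem lcr_lip {R S : ℕ} (i j r c : ℕ) :
    Lip (fun (x : Fin R → Fin k) (y : Fin S → Fin k) => lcr x y i j r c) 1 := by
  constructor
  · intro i' a a' b h
    have h1 := lp_row_change (i := i) (j := j) (r := r) (c := c) (m := LCS13.mt (wn a) (wn b))
      (m' := LCS13.mt (wn a') (wn b)) (i' : ℕ) (fun x y hx => by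
        unfold LCS13.mt; rw [wn_change i' a a' h hx])
    have h2 := lp_row_change (i := i) (j := j) (r := r) (c := c) (m := LCS13.mt (wn a') (wn b))
      (m' := LCS13.mt (wn a) (wn b)) (i' : ℕ) (fun x y hx => by
        unfold LCS13.mt; rw [wn_change i' a a' h hx])
    have h1' : lcr a b i j r c ≤ lcr a' b i j r c + 1 := by unfold lcr; exact_mod_cast h1
    have h2' : lcr a' b i j r c ≤ lcr a b i j r c + 1 := by unfold lcr; exact_mod_cast h2
    rw [abs_le]
    constructor <;> linarith
  · intro i' a b b' h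
    have h1 := lp_col_change (i := i) (j := j) (r := r) (c := c) (m := LCS13.mt (wn a) (wn b))
      (m' := LCS13.mt (wn a) (wn b')) (i' : ℕ) (fun x y hx => by
        unfold LCS13.mt; rw [wn_change i' b b' h hx])
    have h2 := lp_col_change (i := i) (j := j) (r := r) (c := c) (m := LCS13.mt (wn a) (wn b'))
      (m' := LCS13.mt (wn a) (wn b)) (i' : ℕ) (fun x y hx => by
        unfold LCS13.mt; rw [wn_change i' b b' h hx])
    have h1' : lcr a b i j r c ≤ lcr a b' i j r c + 1 := by unfold lcr; exact_mod_cast h1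
    have h2' : lcr a b' i j r c ≤ lcr a b i j r c + 1 := by unfold lcr; exact_mod_cast h2
    rw [abs_le]
    constructor <;> linarith

/-- McDiarmid. -/
theorem EE_exp_le [NeZero k] {R S : ℕ} {F : (Fin R → Fin k) → (Fin S → Fin k) → ℝ} {c : ℝ}
    (hF : Lip F c) :
    EE k R S (fun x y => Real.exp (F x y)) ≤ Real.exp (EE k R S F + ((R : ℝ) + S) * c ^ 2 / 2) := by
  have h := mgf_two R S F c c (fun i a a' ω h => hF.1 i a a' ω h) (fun i a ω ω' h => hF.2 i a ω ω' h)
  have e1 : EE k R S (fun x y => Real.exp (F x y)) =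
      𝔼 ω : Fin S → Fin k, 𝔼 a : Fin R → Fin k, Real.exp (F a ω) := EE_comm _
  have e2 : EE k R S F = 𝔼 ω : Fin S → Fin k, 𝔼 a : Fin R → Fin k, F a ω := EE_comm _
  rw [e1, e2]
  refine h.trans (le_of_eq ?_)
  congr 1
  ring

/-- Jensen. -/
theorem exp_EE_le [NeZero k] {R S : ℕ} (F : (Fin R → Fin k) → (Fin S → Fin k) → ℝ) :
    Real.exp (EE k R S F) ≤ EE k R S (fun x y => Real.exp (F x y)) := by
  have h := EE_mono (k := k) (R := R) (S := S)
    (F := fun x y => Real.exp (EE k R S F) * (F x y - EE k R S F + 1))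
    (G := fun x y => Real.exp (F x y)) (fun x y => by
      have h1 := Real.add_one_le_exp (F x y - EE k R S F)
      have h2 := mul_le_mul_of_nonneg_left h1 (Real.exp_pos (EE k R S F)).le
      rwa [← Real.exp_add, add_sub_cancel] at h2)
  refine le_trans (le_of_eq ?_) h
  rw [EE_const_mul, EE_add, EE_sub, EE_const, EE_const]
  ring

/-- Exponential moment of one rectangle: only its own letters count. -/
theorem EE_exp_lcr [NeZero k] {R S i j r c : ℕ} (hi : i + r ≤ R) (hj : j + c ≤ S) (a l : ℝ) :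
    EE k R S (fun x y => Real.exp (l * (a - lcr x y i j r c))) ≤
      Real.exp (l * (a - ph k r c) + ((r : ℝ) + c) * l ^ 2 / 2) := by
  rw [EE_rect hi hj (fun t => Real.exp (l * (a - t)))]
  have h1 : Lip (fun (x : Fin r → Fin k) (y : Fin c → Fin k) => l * (a - lcr x y 0 0 r c))
      (|l| * 1) := ((lcr_lip 0 0 r c).const_sub a).mul l
  refine (EE_exp_le h1).trans (le_of_eq ?_)
  congr 1
  rw [EE_const_mul, EE_sub, EE_const]
  unfold ph
  rw [mul_one, sq_abs]

/-- Log-sum-exp bound for the expected maximum. -/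
theorem lse [NeZero k] {R S : ℕ} {ι : Type*} (s : Finset ι) (u : (Fin R → Fin k) → (Fin S → Fin k) → ℝ)
    (F : ι → (Fin R → Fin k) → (Fin S → Fin k) → ℝ) (g : ι → ℝ) (l : ℝ) (hl : 0 < l)
    (hu : ∀ x y, ∃ i ∈ s, u x y ≤ F i x y)
    (hF : ∀ i ∈ s, EE k R S (fun x y => Real.exp (l * F i x y)) ≤ g i) :
    EE k R S u ≤ Real.log (∑ i ∈ s, g i) / l := by
  have h1 : Real.exp (EE k R S fun x y => l * u x y) ≤ ∑ i ∈ s, g i := by
    calc Real.exp (EE k R S fun x y => l * u x y)
        ≤ EE k R S (fun x y => Real.exp (l * u x y)) := exp_EE_le _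
      _ ≤ EE k R S (fun x y => ∑ i ∈ s, Real.exp (l * F i x y)) := by
          refine EE_mono fun x y => ?_
          obtain ⟨i, hi, h⟩ := hu x y
          calc Real.exp (l * u x y) ≤ Real.exp (l * F i x y) :=
                Real.exp_le_exp.2 (mul_le_mul_of_nonneg_left h hl.le)
            _ ≤ _ := Finset.single_le_sum (f := fun i => Real.exp (l * F i x y))
                (fun i _ => (Real.exp_pos _).le) hi
      _ = ∑ i ∈ s, EE k R S (fun x y => Real.exp (l * F i x y)) :=
          EE_sum s (fun i x y => Real.exp (l * F i x y))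
      _ ≤ _ := Finset.sum_le_sum hF
  rw [EE_const_mul] at h1
  have h2 : l * EE k R S u ≤ Real.log (∑ i ∈ s, g i) := by
    have h3 := Real.log_le_log (Real.exp_pos _) h1
    rwa [Real.log_exp] at h3
  rw [le_div_iff₀ hl]
  linarith

/-- The same with a uniform bound. -/
theorem lse_card [NeZero k] {R S : ℕ} {ι : Type*} (s : Finset ι)
    (u : (Fin R → Fin k) → (Fin S → Fin k) → ℝ)
    (F : ι → (Fin R → Fin k) → (Fin S → Fin k) → ℝ) (m v K : ℝ) (l : ℝ) (hl : 0 < l)
    (hK : (s.card : ℝ) ≤ K)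
    (hu : ∀ x y, ∃ i ∈ s, u x y ≤ F i x y)
    (hF : ∀ i ∈ s, EE k R S (fun x y => Real.exp (l * F i x y)) ≤ Real.exp (l * m + v)) :
    EE k R S u ≤ m + (Real.log K + v) / l := by
  have h := lse s u F (fun _ => Real.exp (l * m + v)) l hl hu hF
  refine h.trans ?_
  rw [Finset.sum_const, nsmul_eq_mul]
  have hs : 0 < (s.card : ℝ) := by
    obtain ⟨x⟩ : Nonempty (Fin R → Fin k) := inferInstance
    obtain ⟨y⟩ : Nonempty (Fin S → Fin k) := inferInstance
    obtain ⟨i, hi, _⟩ := hu x y
    exact_mod_cast Finset.card_pos.2 ⟨i, hi⟩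
  rw [Real.log_mul hs.ne' (Real.exp_pos _).ne', Real.log_exp]
  have h1 := Real.log_le_log hs hK
  rw [div_le_iff₀ hl]
  have : (m + (Real.log K + v) / l) * l = m * l + (Real.log K + v) := by field_simp
  rw [this]
  linarith

end

end Pool.Agent.LCSD
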