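import Pool.Agent.Work.MP_bec1e1_DEF_h67.B

/-!
# DEF, part C: the limit shape on integer vectors and its supporting lines
-/

open Finset BigOperators Filter Topology

namespace Pool.Agent.LCSD

open Pool.Agent.LCS13

noncomputable section

variable {k : ℕ}

theorem psi_aux (k : ℕ) [NeZero k] (a b : ℕ) : ∃ s : ℝ,
    Tendsto (fun n : ℕ => ph k (n * a) (n * b) / n) atTop (𝓝 s) ∧
      ∀ n : ℕ, ph k (n * a) (n * b) ≤ n * s := by
  have hsub : Subadditive (fun n : ℕ => - ph k (n * a) (n * b)) := by
    intro m n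
    have := ph_superadd (k := k) (m * a) (m * b) (n * a) (n * b)
    rw [← Nat.add_mul, ← Nat.add_mul] at this
    linarith
  have hbdd : BddBelow (Set.range fun n : ℕ => - ph k (n * a) (n * b) / n) := by
    refine ⟨-(a : ℝ), ?_⟩
    rintro _ ⟨n, rfl⟩
    rcases Nat.eq_zero_or_pos n with h | h
    · subst h
      simp
    · have h0 : (0 : ℝ) < n := by exact_mod_cast h
      show -(a : ℝ) ≤ - ph k (n * a) (n * b) / n
      rw [le_div_iff₀ h0]
      have := ph_le_rows (k := k) (n * a) (n * b)
      push_cast at this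
      linarith
  refine ⟨-hsub.lim, ?_, ?_⟩
  · have h := (hsub.tendsto_lim hbdd).neg
    refine h.congr fun n => ?_
    ring
  · intro n
    rcases Nat.eq_zero_or_pos n with h | h
    · subst h
      simp only [Nat.zero_mul, Nat.cast_zero, zero_mul]
      have := ph_le_rows (k := k) 0 0
      simpa using this
    · have h0 : (0 : ℝ) < n := by exact_mod_cast h
      have h1 := hsub.lim_le_div hbdd (n := n) (by omega)
      rw [le_div_iff₀ h0] at h1
      linarith

/-- The limit shape. -/
def psi (k : ℕ) [NeZero k] (a b : ℕ) : ℝ := Classical.choose (psi_aux k a b)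

variable [NeZero k]

theorem psi_tendsto (a b : ℕ) :
    Tendsto (fun n : ℕ => ph k (n * a) (n * b) / n) atTop (𝓝 (psi k a b)) :=
  (Classical.choose_spec (psi_aux k a b)).1

theorem ph_mul_le (a b n : ℕ) : ph k (n * a) (n * b) ≤ n * psi k a b :=
  (Classical.choose_spec (psi_aux k a b)).2 n

theorem ph_le_psi (a b : ℕ) : ph k a b ≤ psi k a b := by
  have := ph_mul_le (k := k) a b 1
  simpa using this

theorem psi_le_of (a b : ℕ) (s : ℝ) (h : ∀ n : ℕ, 0 < n → ph k (n * a) (n * b) ≤ n * s) :
    psi k a b ≤ s := by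
  refine le_of_tendsto (psi_tendsto a b) ?_
  filter_upwards [eventually_gt_atTop 0] with n hn
  have h0 : (0 : ℝ) < n := by exact_mod_cast hn
  rw [div_le_iff₀ h0]
  linarith [h n hn]

theorem psi_superadd (a b a' b' : ℕ) : psi k a b + psi k a' b' ≤ psi k (a + a') (b + b') := by
  refine le_of_tendsto_of_tendsto' ((psi_tendsto a b).add (psi_tendsto a' b'))
    (psi_tendsto (a + a') (b + b')) fun n => ?_
  rw [← add_div]
  refine div_le_div_of_nonneg_right ?_ (Nat.cast_nonneg _)
  rw [Nat.mul_add, Nat.mul_add]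
  exact ph_superadd _ _ _ _

theorem psi_smul (m a b : ℕ) : psi k (m * a) (m * b) = m * psi k a b := by
  rcases Nat.eq_zero_or_pos m with h | h
  · subst h
    simp only [Nat.zero_mul, Nat.cast_zero, zero_mul]
    refine le_antisymm ?_ ?_
    · refine psi_le_of _ _ _ fun n _ => ?_
      have := ph_le_rows (k := k) (n * 0) (n * 0)
      simpa using this
    · have := ph_le_psi (k := k) 0 0
      exact le_trans (ph_nonneg _ _) this
  · have h0 : (0 : ℝ) < m := by exact_mod_cast h
    refine tendsto_nhds_unique (psi_tendsto (m * a) (m * b)) ?_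
    have h1 : Tendsto (fun n : ℕ => n * m) atTop atTop := tendsto_id.atTop_mul_const' h
    have h2 := ((psi_tendsto (k := k) a b).comp h1).const_mul (m : ℝ)
    refine h2.congr fun n => ?_
    simp only [Function.comp]
    rw [Nat.mul_assoc, Nat.mul_assoc]
    push_cast
    rcases Nat.eq_zero_or_pos n with h3 | h3
    · subst h3; simp
    · have h4 : (0 : ℝ) < n := by exact_mod_cast h3
      field_simp

theorem psi_add_col_le (a b d : ℕ) : psi k a (b + d) ≤ psi k a b + d := by
  refine psi_le_of _ _ _ fun n hn => ?_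
  have h1 := ph_add_col_le (k := k) (n * a) (n * b) (n * d)
  have h2 := ph_mul_le (k := k) a b n
  rw [← Nat.mul_add] at h1
  push_cast at h1
  linarith

theorem psi_nonneg (a b : ℕ) : 0 ≤ psi k a b := le_trans (ph_nonneg _ _) (ph_le_psi _ _)

theorem psi_le_rows (a b : ℕ) : psi k a b ≤ a := by
  refine psi_le_of _ _ _ fun n hn => ?_
  have := ph_le_rows (k := k) (n * a) (n * b)
  push_cast at this
  exact this

theorem psi_le_cols (a b : ℕ) : psi k a b ≤ b := by
  refine psi_le_of _ _ _ fun n hn => ?_
  have := ph_le_cols (k := k) (n * a) (n * b)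
  push_cast at this
  exact this

/-- A supporting line. -/
structure Line (k : ℕ) [NeZero k] (p q : ℝ) : Prop where
  p0 : 0 ≤ p
  p1 : p ≤ 1
  q0 : 0 ≤ q
  q1 : q ≤ 1
  le : ∀ r c : ℕ, psi k r c ≤ p * r + q * c

/-- Slopes to the left are larger than slopes to the right. -/
theorem slope_le {M B : ℕ} (hM : 0 < M) {r c r' c' : ℕ} (h : B * r < c * M) (h' : c' * M < B * r') :
    ((M : ℝ) * psi k r c - r * psi k M B) / (c * M - B * r) ≤
      (r' * psi k M B - M * psi k r' c') / (B * r' - c' * M) := by
  obtain ⟨X, hX⟩ := Nat.exists_eq_add_of_lt h'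
  obtain ⟨Y, hY⟩ := Nat.exists_eq_add_of_lt h
  have hZ0 : c' * r ≤ c * r' := by
    have h1 : c' * r * M ≤ c * r' * M := by nlinarith
    exact Nat.le_of_mul_le_mul_right h1 hM
  obtain ⟨Z, hZ⟩ := Nat.exists_eq_add_of_le hZ0
  have e1 : (X + 1) * r + (Y + 1) * r' = Z * M := by
    have : ((X : ℤ) + 1) * r + (Y + 1) * r' = Z * M := by
      zify at hX hY hZ
      linear_combination (-r : ℤ) * hX + (-r' : ℤ) * hY + M * hZ
    exact_mod_cast this
  have e2 : (X + 1) * c + (Y + 1) * c' = Z * B := by
    have : ((X : ℤ) + 1) * c + (Y + 1) * c' = Z * B := by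
      zify at hX hY hZ
      linear_combination (-c : ℤ) * hX + (-c' : ℤ) * hY + B * hZ
    exact_mod_cast this
  have h1 := psi_superadd (k := k) ((X + 1) * r) ((X + 1) * c) ((Y + 1) * r') ((Y + 1) * c')
  rw [e1, e2, psi_smul, psi_smul, psi_smul] at h1
  push_cast at h1
  have hM' : (0 : ℝ) < M := by exact_mod_cast hM
  have hX' : (B : ℝ) * r' - c' * M = X + 1 := by
    have : (B : ℝ) * r' = c' * M + X + 1 := by exact_mod_cast hX
    linarith
  have hY' : (c : ℝ) * M - B * r = Y + 1 := by
    have : (c : ℝ) * M = B * r + Y + 1 := by exact_mod_cast hY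
    linarith
  have e1' : ((X : ℝ) + 1) * r + (Y + 1) * r' = Z * M := by exact_mod_cast e1
  rw [hX', hY', div_le_div_iff₀ (by positivity) (by positivity)]
  have h2 : (M : ℝ) * (((X : ℝ) + 1) * psi k r c + ((Y : ℝ) + 1) * psi k r' c') ≤
      M * (Z * psi k M B) := mul_le_mul_of_nonneg_left h1 hM'.le
  have h3 : (((X : ℝ) + 1) * r + (Y + 1) * r') * psi k M B = Z * M * psi k M B := by rw [e1']
  linarith

/-- There is a supporting line at every integer vector with positive coordinates. -/
theorem exists_line {M B : ℕ} (hM : 0 < M) (hB : 0 < B) :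
    ∃ p q : ℝ, Line k p q ∧ p * M + q * B = psi k M B := by
  have hM' : (0 : ℝ) < M := by exact_mod_cast hM
  have hB' : (0 : ℝ) < B := by exact_mod_cast hB
  set s : ℕ → ℕ → ℝ := fun r c => ((M : ℝ) * psi k r c - r * psi k M B) / (c * M - B * r) with hs
  set T : Set ℝ := {t | ∃ r c : ℕ, B * r < c * M ∧ t = s r c} with hT
  have hz : psi k 0 1 = 0 := le_antisymm (by simpa using psi_le_rows (k := k) 0 1) (psi_nonneg _ _)
  have hz' : psi k 1 0 = 0 := le_antisymm (by simpa using psi_le_cols (k := k) 1 0) (psi_nonneg _ _)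
  have hmem : (0 : ℝ) ∈ T := ⟨0, 1, by omega, by simp [hs, hz]⟩
  have hub : ∀ r' c' : ℕ, c' * M < B * r' → ∀ t ∈ T,
      t ≤ (r' * psi k M B - M * psi k r' c') / (B * r' - c' * M) := by
    rintro r' c' h' t ⟨r, c, h, rfl⟩
    exact slope_le hM h h'
  have hbdd : BddAbove T := ⟨_, fun t ht => hub 1 0 (by omega) t ht⟩
  set q : ℝ := sSup T with hq
  have hq0 : 0 ≤ q := le_csSup hbdd hmem
  have hq1 : q ≤ 1 := by
    refine csSup_le ⟨0, hmem⟩ ?_
    rintro t ⟨r, c, h, rfl⟩
    obtain ⟨Y, hY⟩ := Nat.exists_eq_add_of_lt h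
    have hY' : (c : ℝ) * M = B * r + Y + 1 := by exact_mod_cast hY
    have h1 : (M : ℝ) * psi k r c = psi k (M * r) (M * c) := (psi_smul M r c).symm
    have h2 : (r : ℝ) * psi k M B = psi k (r * M) (r * B) := (psi_smul r M B).symm
    have h3 : psi k (M * r) (M * c) ≤ psi k (r * M) (r * B) + (Y + 1) := by
      have := psi_add_col_le (k := k) (r * M) (r * B) (Y + 1)
      rw [show M * r = r * M by ring, show M * c = r * B + (Y + 1) by linarith]
      push_cast at this
      exact this
    simp only [hs]
    rw [show (c : ℝ) * M - B * r = Y + 1 by linarith, div_le_one (by positivity), h1, h2]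
    linarith
  have hqB : q * B ≤ psi k M B := by
    have h1 : q ≤ (1 * psi k M B - M * psi k 1 0) / (B * 1 - 0 * M) := by
      refine csSup_le ⟨0, hmem⟩ fun t ht => ?_
      have := hub 1 0 (by omega) t ht
      simpa using this
    rw [hz'] at h1
    simp only [one_mul, mul_zero, sub_zero, mul_one, zero_mul] at h1
    rwa [le_div_iff₀ hB'] at h1
  refine ⟨(psi k M B - q * B) / M, q, ⟨?_, ?_, hq0, hq1, ?_⟩, ?_⟩
  · exact div_nonneg (by linarith) hM'.le
  · rw [div_le_one hM']
    have := psi_le_rows (k := k) M B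
    have : 0 ≤ q * B := by positivity
    linarith
  · intro r c
    rcases lt_trichotomy (B * r) (c * M) with h | h | h
    · have h1 : s r c ≤ q := le_csSup hbdd ⟨r, c, h, rfl⟩
      have h2 : (0 : ℝ) < c * M - B * r := by
        have : (B : ℝ) * r < c * M := by exact_mod_cast h
        linarith
      simp only [hs] at h1
      rw [div_le_iff₀ h2] at h1
      have h3 : (psi k M B - q * B) / M * r + q * c =
          (r * psi k M B + q * (c * M - B * r)) / M := by field_simp; ring
      rw [h3, le_div_iff₀ hM']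
      linarith
    · have h1 : psi k (M * r) (M * c) = psi k (r * M) (r * B) := by
        rw [show M * r = r * M by ring, show M * c = r * B by linarith]
      rw [psi_smul, psi_smul] at h1
      have h2 : (B : ℝ) * r = c * M := by exact_mod_cast h
      have h3 : (psi k M B - q * B) / M * r + q * c =
          (r * psi k M B + q * (c * M - B * r)) / M := by field_simp; ring
      rw [h3, le_div_iff₀ hM', h2, sub_self, mul_zero, add_zero]
      linarith
    · have h1 : q ≤ (r * psi k M B - M * psi k r c) / (B * r - c * M) :=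
        csSup_le ⟨0, hmem⟩ (hub r c h)
      have h2 : (0 : ℝ) < B * r - c * M := by
        have : (c : ℝ) * M < B * r := by exact_mod_cast h
        linarith
      rw [le_div_iff₀ h2] at h1
      have h3 : (psi k M B - q * B) / M * r + q * c =
          (r * psi k M B + q * (c * M - B * r)) / M := by field_simp; ring
      rw [h3, le_div_iff₀ hM']
      linarith
  · field_simp
    ring

end

end Pool.Agent.LCSD
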