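import Pool.Agent.Work.MP_bec1e1_DEF_h67.C

/-!
# DEF, part C2: the limit shape on real vectors as the infimum of its supporting lines
-/

open Finset BigOperators Filter Topology

namespace Pool.Agent.LCSD

open Pool.Agent.LCS13

noncomputable section

variable {k : ℕ} [NeZero k]

/-- The limit shape on real vectors. -/
def ps (k : ℕ) [NeZero k] (s t : ℝ) : ℝ :=
  sInf ((fun u : ℝ × ℝ => u.1 * s + u.2 * t) '' {u | Line k u.1 u.2})

theorem line_one_zero : Line k 1 0 :=
  ⟨zero_le_one, le_rfl, le_rfl, zero_le_one, fun r c => by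
    have := psi_le_rows (k := k) r c
    linarith⟩

theorem line_zero_one : Line k 0 1 :=
  ⟨le_rfl, zero_le_one, zero_le_one, le_rfl, fun r c => by
    have := psi_le_cols (k := k) r c
    linarith⟩

theorem ps_nonempty (s t : ℝ) :
    ((fun u : ℝ × ℝ => u.1 * s + u.2 * t) '' {u | Line k u.1 u.2}).Nonempty :=
  ⟨_, (1, 0), line_one_zero, rfl⟩

theorem ps_bdd {s t : ℝ} (hs : 0 ≤ s) (ht : 0 ≤ t) :
    BddBelow ((fun u : ℝ × ℝ => u.1 * s + u.2 * t) '' {u | Line k u.1 u.2}) := by
  refine ⟨0, ?_⟩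
  rintro _ ⟨u, hu, rfl⟩
  have := mul_nonneg hu.p0 hs
  have := mul_nonneg hu.q0 ht
  show 0 ≤ u.1 * s + u.2 * t
  linarith

theorem ps_le {p q s t : ℝ} (h : Line k p q) (hs : 0 ≤ s) (ht : 0 ≤ t) :
    ps k s t ≤ p * s + q * t :=
  csInf_le (ps_bdd hs ht) ⟨(p, q), h, rfl⟩

theorem le_ps {s t a : ℝ} (h : ∀ p q, Line k p q → a ≤ p * s + q * t) : a ≤ ps k s t := by
  refine le_csInf (ps_nonempty s t) ?_
  rintro _ ⟨u, hu, rfl⟩
  exact h _ _ hu

theorem ps_nat (r c : ℕ) : ps k r c = psi k r c := by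
  refine le_antisymm ?_ (le_ps fun p q h => h.le r c)
  rcases Nat.eq_zero_or_pos r with hr | hr
  · subst hr
    have h := ps_le (line_one_zero (k := k)) (s := ((0 : ℕ) : ℝ)) (t := c) (by simp) (by positivity)
    have h2 := psi_nonneg (k := k) 0 c
    simp only [Nat.cast_zero, mul_zero, zero_mul, add_zero] at h ⊢
    linarith
  rcases Nat.eq_zero_or_pos c with hc | hc
  · subst hc
    have h := ps_le (line_zero_one (k := k)) (s := r) (t := ((0 : ℕ) : ℝ)) (by positivity) (by simp)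
    have h2 := psi_nonneg (k := k) r 0
    simp only [Nat.cast_zero, mul_zero, zero_mul, add_zero] at h ⊢
    linarith
  obtain ⟨p, q, h, he⟩ := exists_line (k := k) hr hc
  rw [← he]
  exact ps_le h (by positivity) (by positivity)

theorem ps_smul {a s t : ℝ} (ha : 0 < a) (hs : 0 ≤ s) (ht : 0 ≤ t) :
    ps k (a * s) (a * t) = a * ps k s t := by
  refine le_antisymm ?_ ?_
  · have : ps k (a * s) (a * t) / a ≤ ps k s t := by
      refine le_ps fun p q h => ?_
      rw [div_le_iff₀ ha]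
      have := ps_le h (mul_nonneg ha.le hs) (mul_nonneg ha.le ht)
      linarith
    rw [div_le_iff₀ ha] at this
    linarith
  · refine le_ps fun p q h => ?_
    have := mul_le_mul_of_nonneg_left (ps_le h hs ht) ha.le
    linarith

theorem ps_superadd {s t s' t' : ℝ} (hs : 0 ≤ s) (ht : 0 ≤ t) (hs' : 0 ≤ s') (ht' : 0 ≤ t') :
    ps k s t + ps k s' t' ≤ ps k (s + s') (t + t') := by
  refine le_ps fun p q h => ?_
  have h1 := ps_le h hs ht
  have h2 := ps_le h hs' ht'
  linarith

theorem ps_lip {s t s' t' : ℝ} (hs : 0 ≤ s) (ht : 0 ≤ t) :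
    ps k s t ≤ ps k s' t' + |s - s'| + |t - t'| := by
  have : ps k s t - |s - s'| - |t - t'| ≤ ps k s' t' := by
    refine le_ps fun p q h => ?_
    have h1 := ps_le h hs ht
    have h2 : p * (s - s') ≤ |s - s'| := by
      calc p * (s - s') ≤ |p * (s - s')| := le_abs_self _
        _ = p * |s - s'| := by rw [abs_mul, abs_of_nonneg h.p0]
        _ ≤ 1 * |s - s'| := mul_le_mul_of_nonneg_right h.p1 (abs_nonneg _)
        _ = _ := one_mul _
    have h3 : q * (t - t') ≤ |t - t'| := by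
      calc q * (t - t') ≤ |q * (t - t')| := le_abs_self _
        _ = q * |t - t'| := by rw [abs_mul, abs_of_nonneg h.q0]
        _ ≤ 1 * |t - t'| := mul_le_mul_of_nonneg_right h.q1 (abs_nonneg _)
        _ = _ := one_mul _
    linarith
  linarith

/-- The loss of the direction `(s, t)` relative to the line `(p, q)`. -/
def Lam (k : ℕ) [NeZero k] (p q s t : ℝ) : ℝ := p * s + q * t - ps k s t

theorem Lam_nonneg {p q s t : ℝ} (h : Line k p q) (hs : 0 ≤ s) (ht : 0 ≤ t) : 0 ≤ Lam k p q s t := by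
  unfold Lam
  linarith [ps_le h hs ht]

theorem Lam_smul {p q a s t : ℝ} (ha : 0 < a) (hs : 0 ≤ s) (ht : 0 ≤ t) :
    Lam k p q (a * s) (a * t) = a * Lam k p q s t := by
  unfold Lam
  rw [ps_smul ha hs ht]
  ring

theorem Lam_subadd {p q s t s' t' : ℝ} (hs : 0 ≤ s) (ht : 0 ≤ t) (hs' : 0 ≤ s') (ht' : 0 ≤ t') :
    Lam k p q (s + s') (t + t') ≤ Lam k p q s t + Lam k p q s' t' := by
  unfold Lam
  linarith [ps_superadd (k := k) hs ht hs' ht']

theorem Lam_lip {p q s t s' t' : ℝ} (h : Line k p q) (hs' : 0 ≤ s') (ht' : 0 ≤ t') :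
    Lam k p q s t ≤ Lam k p q s' t' + 2 * |s - s'| + 2 * |t - t'| := by
  unfold Lam
  have h1 := ps_lip (k := k) (s := s') (t := t') (s' := s) (t' := t) hs' ht'
  rw [abs_sub_comm s' s, abs_sub_comm t' t] at h1
  have h2 : p * (s - s') ≤ |s - s'| := by
    calc p * (s - s') ≤ |p * (s - s')| := le_abs_self _
      _ = p * |s - s'| := by rw [abs_mul, abs_of_nonneg h.p0]
      _ ≤ 1 * |s - s'| := mul_le_mul_of_nonneg_right h.p1 (abs_nonneg _)
      _ = _ := one_mul _
  have h3 : q * (t - t') ≤ |t - t'| := by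
    calc q * (t - t') ≤ |q * (t - t')| := le_abs_self _
      _ = q * |t - t'| := by rw [abs_mul, abs_of_nonneg h.q0]
      _ ≤ 1 * |t - t'| := mul_le_mul_of_nonneg_right h.q1 (abs_nonneg _)
      _ = _ := one_mul _
  linarith

/-- Convexity of the loss at a fixed number of rows: values between two points. -/
theorem Lam_between {p q s t1 t2 t b : ℝ} (hs : 0 < s) (ht1 : 0 ≤ t1) (h1 : t1 ≤ t) (h2 : t ≤ t2)
    (hb1 : Lam k p q s t1 ≤ b) (hb2 : Lam k p q s t2 ≤ b) : Lam k p q s t ≤ b := by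
  rcases h1.eq_or_lt with h1 | h1
  · rw [← h1]; exact hb1
  rcases h2.eq_or_lt with h2 | h2
  · rw [h2]; exact hb2
  have h3 : 0 < t2 - t1 := by linarith
  set a : ℝ := (t2 - t) / (t2 - t1) with ha
  have ha0 : 0 < a := div_pos (by linarith) h3
  have ha1 : 0 < 1 - a := by
    have : 1 - a = (t - t1) / (t2 - t1) := by rw [ha]; field_simp; ring
    rw [this]
    exact div_pos (by linarith) h3
  have e1 : a * s + (1 - a) * s = s := by ring
  have e2 : a * t1 + (1 - a) * t2 = t := by rw [ha]; field_simp; ring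
  have h4 := Lam_subadd (k := k) (p := p) (q := q) (s := a * s) (t := a * t1) (s' := (1 - a) * s)
    (t' := (1 - a) * t2) (by positivity) (by positivity) (by positivity) (by nlinarith)
  rw [e1, e2, Lam_smul ha0 hs.le ht1, Lam_smul ha1 hs.le (by linarith)] at h4
  nlinarith

end

end Pool.Agent.LCSD
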