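import Pool.Agent.Work.MP_bec1e1_DEF_h67.C2

/-!
# DEF, part D: extreme directions
-/

open Finset BigOperators
open scoped Classical

namespace Pool.Agent.LCSD

open Pool.Agent.LCS13

noncomputable section

variable {k : ℕ} [NeZero k]

/-- The quadratic lower bound of the greedy strategy. -/
def UU (k : ℕ) (a : ℝ) (m B : ℕ) : ℝ :=
  m - (((m : ℝ) - B / k) ^ 2 + B * (1 / k) * (1 - 1 / k) + a ^ 2) / (2 * a)

theorem expect_snoc {α : Type} [Fintype α] (N : ℕ) (F : (Fin (N + 1) → α) → ℝ) :
    𝔼 ω : Fin (N + 1) → α, F ω = 𝔼 ω : Fin N → α, 𝔼 a : α, F (Fin.snoc (α := fun _ => α) ω a) := by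
  rw [Finset.expect_comm, ← Finset.expect_product' (s := univ) (t := univ)
    (f := fun (a : α) (ω : Fin N → α) => F (Fin.snoc (α := fun _ => α) ω a)), Finset.univ_product_univ]
  exact (Fintype.expect_equiv (Fin.snocEquiv fun _ : Fin (N + 1) => α) _ _ fun p => rfl).symm

theorem wn_snoc_lt {N : ℕ} (y : Fin N → Fin k) (a : Fin k) {j : ℕ} (hj : j < N) :
    wn (Fin.snoc (α := fun _ => Fin k) y a) j = wn y j := by
  unfold wn
  rw [dif_pos (show j < N + 1 by omega), dif_pos hj]
  have : (⟨j, by omega⟩ : Fin (N + 1)) = Fin.castSucc ⟨j, hj⟩ := rfl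
  rw [this, Fin.snoc_castSucc]

theorem wn_snoc_last {N : ℕ} (y : Fin N → Fin k) (a : Fin k) :
    wn (Fin.snoc (α := fun _ => Fin k) y a) N = some (a : ℕ) := by
  unfold wn
  rw [dif_pos (show N < N + 1 by omega)]
  have : (⟨N, by omega⟩ : Fin (N + 1)) = Fin.last N := rfl
  rw [this, Fin.snoc_last]

theorem greedy {M : ℕ} (x : Fin M → Fin k) (a : ℝ) (ha : 0 < a) : ∀ B m : ℕ, m ≤ M →
    UU k a m B ≤ 𝔼 y : Fin B → Fin k, lcr x y 0 0 m B := by
  have hk : (0 : ℝ) < k := by exact_mod_cast Nat.pos_of_ne_zero (NeZero.ne k)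
  have hk1 : (1 : ℝ) ≤ k := by exact_mod_cast Nat.one_le_iff_ne_zero.2 (NeZero.ne k)
  intro B
  induction B with
  | zero =>
    intro m hm
    have h1 : 0 ≤ 𝔼 y : Fin 0 → Fin k, lcr x y 0 0 m 0 :=
      Finset.expect_nonneg fun y _ => lcr_nonneg _ _ _ _ _ _
    refine le_trans ?_ h1
    unfold UU
    rw [sub_nonpos, le_div_iff₀ (by positivity)]
    simp
    nlinarith [sq_nonneg ((m : ℝ) - a)]
  | succ B ih =>
    intro m hm
    rcases Nat.eq_zero_or_pos m with h0 | h0
    · subst h0
      have h1 : 0 ≤ 𝔼 y : Fin (B + 1) → Fin k, lcr x y 0 0 0 (B + 1) :=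
        Finset.expect_nonneg fun y _ => lcr_nonneg _ _ _ _ _ _
      refine le_trans ?_ h1
      unfold UU
      rw [Nat.cast_zero, sub_nonpos]
      refine div_nonneg ?_ (by positivity)
      have h2 : 0 ≤ 1 - 1 / (k : ℝ) := by
        rw [sub_nonneg, div_le_one hk]; exact hk1
      positivity
    · obtain ⟨m, rfl⟩ : ∃ m', m = m' + 1 := ⟨m - 1, by omega⟩
      have h1 := ih m (by omega)
      have h2 := ih (m + 1) hm
      rw [expect_snoc]
      set z : Fin k := x ⟨m, by omega⟩ with hz
      have hwx : wn x m = some (z : ℕ) := by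
        unfold wn
        rw [dif_pos (show m < M by omega)]
      have key : ∀ (y : Fin B → Fin k) (b : Fin k),
          (if b = z then lcr x y 0 0 m B + 1 else lcr x y 0 0 (m + 1) B) ≤
            lcr x (Fin.snoc (α := fun _ => Fin k) y b) 0 0 (m + 1) (B + 1) := by
        intro y b
        have hc : ∀ r : ℕ, lcr x y 0 0 r B =
            lcr x (Fin.snoc (α := fun _ => Fin k) y b) 0 0 r B := by
          intro r
          unfold lcr
          congr 1
          refine LPK.lp_congr fun i j _ hj => ?_
          unfold LCS13.mt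
          rw [zero_add, zero_add, wn_snoc_lt y b hj]
        rw [hc, hc]
        split_ifs with h
        · unfold lcr
          have := LPK.lp_match (LCS13.mt (wn x) (wn (Fin.snoc (α := fun _ => Fin k) y b))) 0 0 m B (by
            rw [zero_add, zero_add]
            exact ⟨z, hwx, by rw [wn_snoc_last, h]⟩)
          exact_mod_cast this.ge
        · exact lcr_mono _ _ _ _ le_rfl (Nat.le_succ _)
      have h3 : ∀ y : Fin B → Fin k,
          (1 / (k : ℝ)) * (lcr x y 0 0 m B + 1) + (1 - 1 / k) * lcr x y 0 0 (m + 1) B ≤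
          𝔼 b : Fin k, lcr x (Fin.snoc (α := fun _ => Fin k) y b) 0 0 (m + 1) (B + 1) := by
        intro y
        refine le_trans (le_of_eq ?_) (Finset.expect_le_expect fun b _ => key y b)
        rw [Fintype.expect_eq_sum_div_card, Fintype.card_fin]
        rw [Finset.sum_ite, Finset.sum_const, Finset.sum_const, Finset.filter_eq']
        simp only [Finset.mem_univ, if_true, Finset.card_singleton, one_smul]
        have h4 : ((univ.filter fun b : Fin k => ¬ b = z).card : ℝ) = k - 1 := by
          have h5 := Finset.card_filter_add_card_filter_not (s := (univ : Finset (Fin k)))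
            (fun b => b = z)
          rw [Finset.filter_eq', if_pos (Finset.mem_univ z), Finset.card_singleton,
            Finset.card_univ, Fintype.card_fin] at h5
          have : (1 : ℝ) + ((univ.filter fun b : Fin k => ¬ b = z).card : ℝ) = k := by
            exact_mod_cast h5
          linarith
        rw [nsmul_eq_mul, h4]
        field_simp
      refine le_trans ?_ (Finset.expect_le_expect fun y _ => h3 y)
      rw [Finset.expect_add_distrib, ← Finset.mul_expect, ← Finset.mul_expect,
        Finset.expect_add_distrib, Fintype.expect_const]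
      have h5 : 0 ≤ 1 - 1 / (k : ℝ) := by
        rw [sub_nonneg, div_le_one hk]; exact hk1
      have h6 : UU k a (m + 1) (B + 1) = (1 / (k : ℝ)) * (UU k a m B + 1) +
          (1 - 1 / k) * UU k a (m + 1) B := by
        unfold UU
        push_cast
        field_simp
        ring
      rw [h6]
      have h7 : (1 / (k : ℝ)) * (UU k a m B + 1) ≤
          (1 / (k : ℝ)) * ((𝔼 y : Fin B → Fin k, lcr x y 0 0 m B) + 1) :=
        mul_le_mul_of_nonneg_left (by linarith) (by positivity)
      have h8 := mul_le_mul_of_nonneg_left h2 h5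
      linarith

/-- In the extreme directions the LCS is almost the number of rows. -/
theorem ph_extreme {M B : ℕ} (h : k * M ≤ B) : (M : ℝ) - √M ≤ ph k M B := by
  have hk : (0 : ℝ) < k := by exact_mod_cast Nat.pos_of_ne_zero (NeZero.ne k)
  rcases Nat.eq_zero_or_pos M with h0 | h0
  · subst h0
    simpa using ph_nonneg (k := k) 0 B
  have h0' : (0 : ℝ) < M := by exact_mod_cast h0
  have hs : 0 < √(M : ℝ) := Real.sqrt_pos.2 h0'
  refine le_trans ?_ (ph_mono (k := k) (le_refl M) h)
  have h1 : UU k (√M) M (k * M) ≤ ph k M (k * M) := by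
    have h2 := EE_mono (k := k) (R := M) (S := 0) (F := fun _ _ => UU k (√M) M (k * M))
      (G := fun x _ => 𝔼 y : Fin (k * M) → Fin k, lcr x y 0 0 M (k * M))
      (fun x _ => greedy x _ hs (k * M) M le_rfl)
    rw [EE_const] at h2
    refine h2.trans (le_of_eq ?_)
    unfold ph EE
    refine Finset.expect_congr rfl fun x _ => ?_
    exact Fintype.expect_const _
  refine le_trans ?_ h1
  unfold UU
  push_cast
  have h3 : (M : ℝ) - k * M / k = 0 := by field_simp; ring
  rw [h3]
  have h4 : √(M : ℝ) ^ 2 = M := Real.sq_sqrt h0'.le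
  rw [h4]
  have h5 : ((0 : ℝ) ^ 2 + k * M * (1 / k) * (1 - 1 / k) + M) / (2 * √M) ≤ √M := by
    rw [div_le_iff₀ (by positivity)]
    have h6 : (k : ℝ) * M * (1 / k) * (1 - 1 / k) ≤ M := by
      have : (k : ℝ) * M * (1 / k) = M := by field_simp
      rw [this]
      have : 0 ≤ (M : ℝ) * (1 / k) := by positivity
      nlinarith
    nlinarith
  linarith

theorem def_extreme {M B : ℕ} (h : k * M ≤ B) : psi k M B - ph k M B ≤ √((M : ℝ) + B) := by
  have h1 := ph_extreme (k := k) h
  have h2 := psi_le_rows (k := k) M B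
  have h3 : √(M : ℝ) ≤ √((M : ℝ) + B) := Real.sqrt_le_sqrt (by
    have : (0 : ℝ) ≤ B := Nat.cast_nonneg _
    linarith)
  linarith

theorem psi_comm (a b : ℕ) : psi k a b = psi k b a := by
  refine tendsto_nhds_unique (psi_tendsto a b) ?_
  refine (psi_tendsto (k := k) b a).congr fun n => ?_
  rw [ph_comm]

theorem def_extreme' {M B : ℕ} (h : k * B ≤ M) : psi k M B - ph k M B ≤ √((M : ℝ) + B) := by
  have := def_extreme (k := k) h
  rw [psi_comm, ph_comm, add_comm (M : ℝ)]
  exact this

end

end Pool.Agent.LCSD
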