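import Pool.Agent.Work.MP_bec1e1_DEF_h67.D

/-!
# DEF, part E: the a priori bound `C √n log n`
-/

open Finset BigOperators Filter Topology
open scoped Classical

namespace Pool.Agent.LCSD

open Pool.Agent.LCS13

noncomputable section

variable {k : ℕ} [NeZero k]

theorem ph_conc_split (r b g : ℕ) (hg : g ≤ 2 * b) :
    ph k r g + ph k r (2 * b - g) ≤ 2 * ph k r b := by
  rcases le_total g b with h | h
  · have := ph_conc_sym (k := k) r b (b - g) (by omega)
    rw [show b - (b - g) = g by omega, show b + (b - g) = 2 * b - g by omega] at this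
    exact this
  · have := ph_conc_sym (k := k) r b (g - b) (by omega)
    rw [show b - (g - b) = 2 * b - g by omega, show b + (g - b) = g by omega] at this
    linarith

theorem ph_double (M B : ℕ) (hn : 0 < M + B) :
    ph k (2 * M) (2 * B) ≤ 2 * ph k M B + (Real.log (2 * ((M : ℝ) + B) + 1) + 4) * √((M : ℝ) + B) := by
  set n : ℝ := (M : ℝ) + B with hn'
  have hn0 : 0 < n := by
    have : (0 : ℝ) < ((M + B : ℕ) : ℝ) := by exact_mod_cast hn
    push_cast at this
    exact this
  have hs : 0 < √n := Real.sqrt_pos.2 hn0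
  have h := lse_card (k := k) (R := 2 * M) (S := 2 * B) (Finset.range (2 * B + 1))
    (fun x y => lcr x y 0 0 (2 * M) (2 * B))
    (fun g x y => lcr x y 0 0 M g + lcr x y M g M (2 * B - g)) (2 * ph k M B) 4
    (2 * n + 1) (1 / √n) (by positivity)
    (by
      rw [Finset.card_range]
      push_cast
      have : (0 : ℝ) ≤ M := Nat.cast_nonneg _
      linarith)
    (by
      intro x y
      obtain ⟨g, hg, h1⟩ := LPK.lp_split_row (LCS13.mt (wn x) (wn y)) 0 0 M M (2 * B)
      refine ⟨g, Finset.mem_range.2 (by omega), ?_⟩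
      rw [← two_mul, zero_add, zero_add] at h1
      unfold lcr
      rw [h1]
      push_cast
      exact le_rfl)
    (by
      intro g hg
      rw [Finset.mem_range] at hg
      have hL : Lip (fun (x : Fin (2 * M) → Fin k) (y : Fin (2 * B) → Fin k) =>
          (1 / √n) * (lcr x y 0 0 M g + lcr x y M g M (2 * B - g))) (|1 / √n| * (1 + 1)) :=
        ((lcr_lip 0 0 M g).add (lcr_lip M g M (2 * B - g))).mul _
      refine (EE_exp_le hL).trans (Real.exp_le_exp.2 ?_)
      rw [EE_const_mul, EE_add, EE_lcr (by omega) (by omega), EE_lcr (by omega) (by omega)]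
      have h1 := ph_conc_split (k := k) M B g (by omega)
      have h2 : (1 / √n) * (ph k M g + ph k M (2 * B - g)) ≤ (1 / √n) * (2 * ph k M B) :=
        mul_le_mul_of_nonneg_left h1 (by positivity)
      have h3 : (((2 * M : ℕ) : ℝ) + ((2 * B : ℕ) : ℝ)) * (|1 / √n| * (1 + 1)) ^ 2 / 2 = 4 := by
        rw [mul_pow, sq_abs, div_pow, Real.sq_sqrt hn0.le]
        push_cast
        rw [show 2 * (M : ℝ) + 2 * B = 2 * n by rw [hn']; ring]
        field_simp
        norm_num
      linarith)
  rw [EE_lcr (by omega) (by omega)] at h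
  refine h.trans (le_of_eq ?_)
  field_simp

/-- The a priori bound. -/
def WW (n : ℝ) : ℝ := 3 * (Real.log (2 * n + 1) + 4) * √n

theorem sqrt_two_lt : √(2 : ℝ) < 1.4143 := by
  rw [Real.sqrt_lt' (by norm_num)]; norm_num

theorem WW_step {n : ℝ} (hn : 1 ≤ n) :
    WW (2 * n) / 2 + (Real.log (2 * n + 1) + 4) * √n / 2 ≤ WW n := by
  unfold WW
  have h0 : 0 ≤ Real.log (2 * n + 1) := Real.log_nonneg (by linarith)
  have h1 : Real.log (2 * (2 * n) + 1) ≤ Real.log (2 * n + 1) + 0.7 := by
    have h2 : Real.log (2 * (2 * n) + 1) ≤ Real.log (2 * (2 * n + 1)) :=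
      Real.log_le_log (by linarith) (by linarith)
    rw [Real.log_mul (by norm_num) (by linarith)] at h2
    have := Real.log_two_lt_d9
    linarith
  have h3 : √(2 * n) = √2 * √n := Real.sqrt_mul (by norm_num) n
  rw [h3]
  have hs : 0 ≤ √n := Real.sqrt_nonneg n
  have h4 : 0 ≤ √(2 : ℝ) := Real.sqrt_nonneg 2
  have h5 := sqrt_two_lt
  have h6 : 3 * (Real.log (2 * (2 * n) + 1) + 4) * (√2 * √n) ≤
      3 * (Real.log (2 * n + 1) + 0.7 + 4) * (1.4143 * √n) := by
    refine mul_le_mul ?_ (mul_le_mul_of_nonneg_right h5.le hs) (by positivity) (by linarith)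
    linarith
  set L := Real.log (2 * n + 1) with hL
  have h7 : 3 * (L + 0.7 + 4) * (1.4143 * √n) / 2 + (L + 4) * √n / 2 ≤ 3 * (L + 4) * √n := by
    have : 0 ≤ (3 * (L + 4) - 3 * (L + 0.7 + 4) * 1.4143 / 2 - (L + 4) / 2) * √n := by
      refine mul_nonneg ?_ hs
      nlinarith
    linarith
  linarith

theorem def_apriori (M B : ℕ) (hn : 0 < M + B) :
    psi k M B - ph k M B ≤ WW ((M : ℝ) + B) := by
  have step : ∀ M B : ℕ, 0 < M + B → psi k M B - ph k M B - WW ((M : ℝ) + B) ≤
      (psi k (2 * M) (2 * B) - ph k (2 * M) (2 * B) - WW (2 * ((M : ℝ) + B))) / 2 := by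
    intro M B hn
    have h1 := ph_double (k := k) M B hn
    have h2 := psi_smul (k := k) 2 M B
    have h3 := WW_step (n := (M : ℝ) + B) (by
      have : (1 : ℝ) ≤ ((M + B : ℕ) : ℝ) := by exact_mod_cast hn
      push_cast at this
      exact this)
    push_cast at h2
    rw [h2]
    linarith
  have iter : ∀ j : ℕ, psi k M B - ph k M B - WW ((M : ℝ) + B) ≤
      (psi k (2 ^ j * M) (2 ^ j * B) - ph k (2 ^ j * M) (2 ^ j * B) -
        WW (2 ^ j * ((M : ℝ) + B))) / 2 ^ j := by
    intro j
    induction j with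
    | zero => simp
    | succ j ih =>
      refine ih.trans ?_
      have h1 := step (2 ^ j * M) (2 ^ j * B) (by
        have : 0 < 2 ^ j * (M + B) := by positivity
        rw [Nat.mul_add] at this
        exact this)
      rw [show 2 * (2 ^ j * M) = 2 ^ (j + 1) * M by ring,
        show 2 * (2 ^ j * B) = 2 ^ (j + 1) * B by ring] at h1
      push_cast at h1
      rw [show (2 : ℝ) ^ j * (M : ℝ) + 2 ^ j * B = 2 ^ j * (M + B) by ring,
        show 2 * ((2 : ℝ) ^ j * ((M : ℝ) + B)) = 2 ^ (j + 1) * (M + B) by ring] at h1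
      rw [div_le_div_iff₀ (by positivity) (by positivity)]
      have h2 : (0 : ℝ) < 2 ^ j := by positivity
      have h3 := mul_le_mul_of_nonneg_right h1 (show (0 : ℝ) ≤ 2 ^ (j + 1) by positivity)
      refine h3.trans (le_of_eq ?_)
      rw [pow_succ]
      ring
  have h1 : Tendsto (fun j : ℕ => psi k M B - ph k (2 ^ j * M) (2 ^ j * B) / (2 : ℝ) ^ j) atTop
      (𝓝 (psi k M B - psi k M B)) := by
    refine tendsto_const_nhds.sub ?_
    have h2 : Tendsto (fun j : ℕ => 2 ^ j) atTop atTop := tendsto_pow_atTop_atTop_of_one_lt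
      (by norm_num)
    refine ((psi_tendsto (k := k) M B).comp h2).congr fun j => ?_
    simp only [Function.comp]
    push_cast
    rfl
  rw [sub_self] at h1
  have h2 : psi k M B - ph k M B - WW ((M : ℝ) + B) ≤ 0 := by
    refine ge_of_tendsto' h1 fun j => ?_
    refine (iter j).trans ?_
    have h3 : (0 : ℝ) < 2 ^ j := by positivity
    have h4 : 0 ≤ WW (2 ^ j * ((M : ℝ) + B)) := by
      unfold WW
      have : 0 ≤ Real.log (2 * (2 ^ j * ((M : ℝ) + B)) + 1) := Real.log_nonneg (by
        have : (0 : ℝ) ≤ 2 * (2 ^ j * ((M : ℝ) + B)) := by positivity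
        linarith)
      positivity
    have h5 := psi_smul (k := k) (2 ^ j) M B
    push_cast at h5
    rw [h5, div_le_iff₀ h3, sub_mul, div_mul_cancel₀ _ h3.ne']
    linarith
  linarith

/-- Hypothesis: the defect is at most `A √n` up to the scale `R`. -/
def Hyp (k : ℕ) [NeZero k] (A R : ℝ) : Prop :=
  ∀ r c : ℕ, (r : ℝ) + c ≤ R → psi k r c - ph k r c ≤ A * √((r : ℝ) + c)

theorem hyp_apriori (R : ℝ) : Hyp k (3 * (Real.log (2 * |R| + 1) + 4)) R := by
  intro r c h
  rcases Nat.eq_zero_or_pos (r + c) with h0 | h0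
  · have hr : r = 0 := by omega
    have hc : c = 0 := by omega
    subst hr; subst hc
    have h1 := psi_le_rows (k := k) 0 0
    have h2 := ph_nonneg (k := k) 0 0
    simp only [Nat.cast_zero, add_zero, Real.sqrt_zero, mul_zero] at h1 ⊢
    linarith
  refine (def_apriori r c h0).trans ?_
  unfold WW
  refine mul_le_mul_of_nonneg_right ?_ (Real.sqrt_nonneg _)
  have h1 : (0 : ℝ) ≤ (r : ℝ) + c := by positivity
  have h2 : Real.log (2 * ((r : ℝ) + c) + 1) ≤ Real.log (2 * |R| + 1) :=
    Real.log_le_log (by linarith) (by linarith [le_abs_self R])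
  linarith

end

end Pool.Agent.LCSD
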