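import Pool.Agent.Work.MP_bec1e1_DEF_h67.E

/-!
# DEF, part F: the fan estimate by chaining

`TT` is the subadditive passage time `p (rows) + q (columns) - LCS`. The expected maximum of the
passage times from a window of `w + 1` points to a common target at height `h` is at most
`(C + C' A) √h`.
-/

open Finset BigOperators Filter Topology
open scoped Classical

namespace Pool.Agent.LCSD

open Pool.Agent.LCS13

noncomputable section

variable {k : ℕ}

/-- Passage time from the point `(i, j)` to the point `(i', j')`. -/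
def TT {R S : ℕ} (p q : ℝ) (x : Fin R → Fin k) (y : Fin S → Fin k) (i j i' j' : ℕ) : ℝ :=
  p * ((i' : ℝ) - i) + q * ((j' : ℝ) - j) - lcr x y i j (i' - i) (j' - j)

theorem TT_sub {R S : ℕ} (p q : ℝ) (x : Fin R → Fin k) (y : Fin S → Fin k) {i i' i'' j j' j'' : ℕ}
    (h1 : i ≤ i') (h2 : i' ≤ i'') (h3 : j ≤ j') (h4 : j' ≤ j'') :
    TT p q x y i j i'' j'' ≤ TT p q x y i j i' j' + TT p q x y i' j' i'' j'' := by
  have h := lcr_superadd x y i j (i' - i) (j' - j) (i'' - i') (j'' - j')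
  rw [show i + (i' - i) = i' by omega, show j + (j' - j) = j' by omega,
    show i' - i + (i'' - i') = i'' - i by omega, show j' - j + (j'' - j') = j'' - j by omega] at h
  unfold TT
  linarith

theorem TT_lip {R S : ℕ} (p q : ℝ) (i j i' j' : ℕ) :
    Lip (fun (x : Fin R → Fin k) (y : Fin S → Fin k) => TT p q x y i j i' j') 1 :=
  (lcr_lip i j (i' - i) (j' - j)).const_sub _

variable [NeZero k]

theorem EE_TT {R S : ℕ} (p q : ℝ) {i j i' j' : ℕ} (h1 : i ≤ i') (h2 : i' ≤ R) (h3 : j ≤ j')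
    (h4 : j' ≤ S) : EE k R S (fun x y => TT p q x y i j i' j') =
      p * ((i' : ℝ) - i) + q * ((j' : ℝ) - j) - ph k (i' - i) (j' - j) := by
  unfold TT
  rw [EE_sub, EE_const, EE_lcr (by omega) (by omega)]

theorem TT_mgf {R S : ℕ} (p q l : ℝ) {i j i' j' : ℕ} (h1 : i ≤ i') (h2 : i' ≤ R) (h3 : j ≤ j')
    (h4 : j' ≤ S) : EE k R S (fun x y => Real.exp (l * TT p q x y i j i' j')) ≤
      Real.exp (l * (p * ((i' : ℝ) - i) + q * ((j' : ℝ) - j) - ph k (i' - i) (j' - j)) +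
        (((i' - i : ℕ) : ℝ) + ((j' - j : ℕ) : ℝ)) * l ^ 2 / 2) := by
  unfold TT
  exact EE_exp_lcr (by omega) (by omega) _ _

theorem TT_le {R S : ℕ} {p q : ℝ} (h : Line k p q) (x : Fin R → Fin k) (y : Fin S → Fin k)
    {i j i' j' : ℕ} (h1 : i ≤ i') (h2 : j ≤ j') :
    TT p q x y i j i' j' ≤ ((i' : ℝ) - i) + ((j' : ℝ) - j) := by
  unfold TT
  have h3 := lcr_nonneg x y i j (i' - i) (j' - j)
  have h4 : (0 : ℝ) ≤ (i' : ℝ) - i := by
    have : (i : ℝ) ≤ i' := by exact_mod_cast h1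
    linarith
  have h5 : (0 : ℝ) ≤ (j' : ℝ) - j := by
    have : (j : ℝ) ≤ j' := by exact_mod_cast h2
    linarith
  have h6 := mul_le_mul_of_nonneg_right h.p1 h4
  have h7 := mul_le_mul_of_nonneg_right h.q1 h5
  linarith

/-! ### Geometry of the chain -/

/-- Window width at level `j`. -/
def wN (w j : ℕ) : ℕ := w / 4 ^ j + 1

/-- Column shift at level `j`. -/
def eN (β : ℝ) (h f j : ℕ) : ℕ := if j = 0 then f else ⌊β * ((h / 4 ^ j : ℕ) : ℝ)⌋₊

/-- Column of the chain at level `j` (relative to the start of the window). -/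
def cN (β : ℝ) (h f w j t : ℕ) : ℕ := t / wN w j * wN w j + eN β h f j

/-- The hypotheses of the fan estimate. -/
structure Geo (k : ℕ) [NeZero k] (p q β A Rm : ℝ) (h w f : ℕ) : Prop where
  line : Line k p q
  b1 : 1 ≤ k * β
  b2 : β ≤ k
  hw : 8 * (k : ℝ) * w ≤ h
  hh : 256 * (k : ℝ) ^ 2 ≤ h
  f1 : β * h - 1 ≤ f
  f2 : (f : ℝ) ≤ β * h + w
  win : ∀ x : ℝ, |x| ≤ 2 * w → Lam k p q h (β * h + x) ≤ √(h : ℝ)
  A0 : 0 ≤ A
  hyp : Hyp k A Rm
  hRm : ((k : ℝ) + 2) * h ≤ Rm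

theorem one_le_k (k : ℕ) [NeZero k] : (1 : ℝ) ≤ k := by
  exact_mod_cast Nat.one_le_iff_ne_zero.2 (NeZero.ne k)

theorem div_pow_bounds (h j : ℕ) :
    (h : ℝ) / 4 ^ j - 1 < ((h / 4 ^ j : ℕ) : ℝ) ∧ ((h / 4 ^ j : ℕ) : ℝ) ≤ (h : ℝ) / 4 ^ j := by
  have h0 : (0 : ℝ) < 4 ^ j := by positivity
  constructor
  · have h1 : h < 4 ^ j * (h / 4 ^ j + 1) := Nat.lt_mul_div_succ h (by positivity)
    have h2 : (h : ℝ) < 4 ^ j * (((h / 4 ^ j : ℕ) : ℝ) + 1) := by exact_mod_cast h1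
    have h3 : (h : ℝ) / 4 ^ j < ((h / 4 ^ j : ℕ) : ℝ) + 1 := by
      rw [div_lt_iff₀ h0]; linarith
    linarith
  · rw [le_div_iff₀ h0]
    exact_mod_cast Nat.div_mul_le_self h (4 ^ j)

theorem cN_bound {p q β A Rm : ℝ} {h w f : ℕ} (G : Geo k p q β A Rm h w f) (j : ℕ) {t : ℕ}
    (ht : t ≤ w) : |(cN β h f w j t : ℝ) - β * ((h : ℝ) / 4 ^ j) - t| ≤ w / 4 ^ j + β + 2 := by
  have hk := one_le_k k
  have hβ : 0 < β := by
    by_contra hc
    have := G.b1
    have : (k : ℝ) * β ≤ 0 := mul_nonpos_of_nonneg_of_nonpos (by linarith) (not_lt.1 hc)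
    linarith
  have ht' : (t : ℝ) ≤ w := by exact_mod_cast ht
  have ht0 : (0 : ℝ) ≤ t := Nat.cast_nonneg _
  rcases Nat.eq_zero_or_pos j with hj | hj
  · subst hj
    have h1 : t / wN w 0 = 0 := Nat.div_eq_of_lt (by unfold wN; simp; omega)
    have h2 : (cN β h f w 0 t : ℝ) = f := by
      unfold cN eN
      rw [h1]
      simp
    rw [h2]
    have := G.f1
    have := G.f2
    rw [pow_zero, div_one, div_one, abs_le]
    constructor <;> linarith
  · have h1 : (eN β h f j) = ⌊β * ((h / 4 ^ j : ℕ) : ℝ)⌋₊ := by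
      unfold eN
      rw [if_neg (by omega)]
    obtain ⟨a1, a2⟩ := div_pow_bounds h j
    obtain ⟨b1, b2⟩ := div_pow_bounds w j
    have h2 : (eN β h f j : ℝ) ≤ β * ((h / 4 ^ j : ℕ) : ℝ) := by
      rw [h1]
      exact Nat.floor_le (by positivity)
    have h3 : β * ((h / 4 ^ j : ℕ) : ℝ) - 1 < (eN β h f j : ℝ) := by
      rw [h1]
      have := Nat.lt_floor_add_one (β * ((h / 4 ^ j : ℕ) : ℝ))
      linarith
    have h4 : t / wN w j * wN w j ≤ t := Nat.div_mul_le_self _ _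
    have h5 : t < t / wN w j * wN w j + wN w j := by
      have := Nat.lt_mul_div_succ t (show 0 < wN w j from Nat.succ_pos _)
      rw [mul_add, mul_one, mul_comm] at this
      exact this
    have h4' : ((t / wN w j * wN w j : ℕ) : ℝ) ≤ t := by exact_mod_cast h4
    have h5' : (t : ℝ) < ((t / wN w j * wN w j : ℕ) : ℝ) + wN w j := by exact_mod_cast h5
    have h6 : (wN w j : ℝ) ≤ w / 4 ^ j + 1 := by
      unfold wN
      push_cast
      linarith
    have h7 : (cN β h f w j t : ℝ) = ((t / wN w j * wN w j : ℕ) : ℝ) + (eN β h f j : ℝ) := by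
      unfold cN
      push_cast
      rfl
    rw [h7]
    have h8 := mul_le_mul_of_nonneg_left a2 hβ.le
    have h9 := mul_lt_mul_of_pos_left a1 hβ
    rw [abs_le]
    constructor
    · linarith
    · have : (0 : ℝ) ≤ (w : ℝ) / 4 ^ j := by positivity
      linarith

/-- Clipping. -/
theorem clip (D a b : ℝ) (ha : 0 ≤ a) (hb : 0 ≤ b) (h : |D| ≤ a + b) :
    ∃ d : ℝ, |d| ≤ a ∧ |D - d| ≤ b := by
  rcases le_total |D| a with h1 | h1
  · exact ⟨D, h1, by simpa using hb⟩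
  · rcases le_total 0 D with h2 | h2
    · rw [abs_of_nonneg h2] at h h1
      refine ⟨a, by rw [abs_of_nonneg ha], ?_⟩
      rw [abs_le]; constructor <;> linarith
    · rw [abs_of_nonpos h2] at h h1
      refine ⟨-a, by rw [abs_neg, abs_of_nonneg ha], ?_⟩
      rw [abs_le]; constructor <;> linarith

/-- The basic estimates of one step of the chain: `a = h / 4^j` is at least `16 k`. -/
theorem chain_geo {p q β A Rm : ℝ} {h w f : ℕ} (G : Geo k p q β A Rm h w f) (j : ℕ) {t : ℕ}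
    (ht : t ≤ w) (ha : 16 * (k : ℝ) ≤ (h : ℝ) / 4 ^ j) :
    h / 4 ^ (j + 1) ≤ h / 4 ^ j ∧ cN β h f w (j + 1) t ≤ cN β h f w j t ∧ t ≤ cN β h f w j t ∧
    (((h / 4 ^ j - h / 4 ^ (j + 1) : ℕ) : ℝ) + ((cN β h f w j t - cN β h f w (j + 1) t : ℕ) : ℝ) ≤
      ((k : ℝ) + 2) * ((h : ℝ) / 4 ^ j)) ∧
    Lam k p q ((h / 4 ^ j - h / 4 ^ (j + 1) : ℕ) : ℝ)
      ((cN β h f w j t - cN β h f w (j + 1) t : ℕ) : ℝ) ≤
      3 / 4 ^ (j + 1) * √(h : ℝ) + (4 * k + 10) := by
  have hk := one_le_k k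
  have hβ : 0 < β := by
    by_contra hc
    have := G.b1
    have : (k : ℝ) * β ≤ 0 := mul_nonpos_of_nonneg_of_nonpos (by linarith) (not_lt.1 hc)
    linarith
  set a : ℝ := (h : ℝ) / 4 ^ j with haj
  have ha4 : (h : ℝ) / 4 ^ (j + 1) = a / 4 := by rw [haj, pow_succ]; field_simp
  set v : ℝ := (w : ℝ) / 4 ^ j with hv
  have hv4 : (w : ℝ) / 4 ^ (j + 1) = v / 4 := by rw [hv, pow_succ]; field_simp
  have hv0 : 0 ≤ v := by positivity
  have hva : 8 * (k : ℝ) * v ≤ a := by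
    rw [hv, haj, ← mul_div_assoc]
    exact div_le_div_of_nonneg_right G.hw (by positivity)
  have hva2 : 8 * v ≤ β * a := by
    have h1 : 8 * v ≤ (k * β) * (8 * v) := by
      have := mul_le_mul_of_nonneg_right G.b1 (show 0 ≤ 8 * v by linarith)
      linarith
    have h2 : β * (8 * k * v) ≤ β * a := mul_le_mul_of_nonneg_left hva hβ.le
    linarith
  have hβa : 16 ≤ β * a := by
    have h2 : β * (16 * k) ≤ β * a := mul_le_mul_of_nonneg_left ha hβ.le
    have := G.b1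
    linarith
  have hβa2 : 16 * β ≤ β * a := by
    have : 16 ≤ a := by linarith
    nlinarith
  have u0 := abs_le.1 (cN_bound G j ht)
  have u1 := abs_le.1 (cN_bound G (j + 1) ht)
  rw [ha4, hv4] at u1
  rw [← haj, ← hv] at u0
  obtain ⟨r1, r2⟩ := div_pow_bounds h j
  obtain ⟨s1, s2⟩ := div_pow_bounds h (j + 1)
  rw [ha4] at s1 s2
  have hrow : h / 4 ^ (j + 1) ≤ h / 4 ^ j := by
    refine Nat.div_le_div_left (Nat.pow_le_pow_right (by norm_num) (by omega)) (by positivity)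
  have hcol : cN β h f w (j + 1) t ≤ cN β h f w j t := by
    have : (cN β h f w (j + 1) t : ℝ) ≤ cN β h f w j t := by linarith [u0.1, u1.2]
    exact_mod_cast this
  have hcolt : t ≤ cN β h f w j t := by
    have : (t : ℝ) ≤ cN β h f w j t := by linarith [u0.1]
    exact_mod_cast this
  refine ⟨hrow, hcol, hcolt, ?_, ?_⟩
  · rw [Nat.cast_sub hrow, Nat.cast_sub hcol]
    have h1 : β * a ≤ k * a := mul_le_mul_of_nonneg_right G.b2 (by linarith)
    have h2 : 8 * v ≤ a := by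
      have : 8 * v ≤ 8 * k * v := by nlinarith
      linarith
    have h3 : k * 16 ≤ k * a := mul_le_mul_of_nonneg_left (by linarith) (by linarith)
    have := G.b2
    linarith [u0.2, u1.1]
  · rw [Nat.cast_sub hrow, Nat.cast_sub hcol]
    set D : ℝ := (cN β h f w j t : ℝ) - cN β h f w (j + 1) t - 3 / 4 * β * a with hD
    have hDb : |D| ≤ 5 / 4 * v + 2 * (β + 2) := by
      rw [abs_le]
      constructor <;> linarith [u0.1, u0.2, u1.1, u1.2]
    obtain ⟨d, hd1, hd2⟩ := clip D (5 / 4 * v) (2 * (β + 2)) (by positivity) (by positivity) hDb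
    have hlip := Lam_lip (k := k) (p := p) (q := q) (s := ((h / 4 ^ j : ℕ) : ℝ) -
      ((h / 4 ^ (j + 1) : ℕ) : ℝ)) (t := (cN β h f w j t : ℝ) - cN β h f w (j + 1) t)
      (s' := 3 / 4 * a) (t' := 3 / 4 * β * a + d) G.line (by linarith) (by
        have := (abs_le.1 hd1).1
        linarith)
    have e1 : |((h / 4 ^ j : ℕ) : ℝ) - ((h / 4 ^ (j + 1) : ℕ) : ℝ) - 3 / 4 * a| ≤ 1 := by
      rw [abs_le]; constructor <;> linarith
    have e2 : |(cN β h f w j t : ℝ) - cN β h f w (j + 1) t - (3 / 4 * β * a + d)| ≤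
        2 * (β + 2) := by
      rw [← sub_sub]
      exact hd2
    have e3 : Lam k p q (3 / 4 * a) (3 / 4 * β * a + d) ≤ 3 / 4 ^ (j + 1) * √(h : ℝ) := by
      have e4 : 3 / 4 * a = 3 / 4 ^ (j + 1) * (h : ℝ) := by rw [haj, pow_succ]; field_simp
      have e5 : 3 / 4 * β * a + d = 3 / 4 ^ (j + 1) * (β * h + 4 ^ (j + 1) / 3 * d) := by
        rw [haj, pow_succ]; field_simp
      have h0 : (0 : ℝ) < 3 / 4 ^ (j + 1) := by positivity
      have e6 : |4 ^ (j + 1) / 3 * d| ≤ 2 * w := by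
        rw [abs_mul, abs_of_nonneg (show (0 : ℝ) ≤ 4 ^ (j + 1) / 3 by positivity)]
        calc (4 : ℝ) ^ (j + 1) / 3 * |d| ≤ 4 ^ (j + 1) / 3 * (5 / 4 * v) :=
              mul_le_mul_of_nonneg_left hd1 (by positivity)
          _ = 5 / 3 * w := by rw [hv, pow_succ]; field_simp
          _ ≤ 2 * w := by
              have : (0 : ℝ) ≤ w := Nat.cast_nonneg _
              linarith
      have hh0 : 0 ≤ β * h + 4 ^ (j + 1) / 3 * d := by
        have h1 := (abs_le.1 e6).1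
        have h2 : 8 * (w : ℝ) ≤ β * h := by
          have h3 : 8 * (w : ℝ) ≤ (k * β) * (8 * w) := by
            have := mul_le_mul_of_nonneg_right G.b1 (show (0 : ℝ) ≤ 8 * w by positivity)
            linarith
          have h4 := mul_le_mul_of_nonneg_left G.hw hβ.le
          linarith
        have : (0 : ℝ) ≤ w := Nat.cast_nonneg _
        linarith
      rw [e4, e5, Lam_smul h0 (Nat.cast_nonneg _) hh0]
      exact mul_le_mul_of_nonneg_left (G.win _ e6) h0.le
    have := G.b2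
    linarith

end

end Pool.Agent.LCSD
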