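import Pool.Agent.Work.MP_bec1e1_DEF_h67.F

/-!
# DEF, part F2: the fan estimate
-/

open Finset BigOperators Filter Topology
open scoped Classical

namespace Pool.Agent.LCSD

open Pool.Agent.LCS13

noncomputable section

variable {k : ℕ} [NeZero k]

theorem sqrt_div_four (h j : ℕ) : √((h : ℝ) / 4 ^ j) = √(h : ℝ) * (1 / 2) ^ j := by
  rw [Real.sqrt_div (Nat.cast_nonneg _)]
  have : √((4 : ℝ) ^ j) = 2 ^ j := by
    rw [show (4 : ℝ) ^ j = (2 ^ j) ^ 2 by rw [← pow_mul, mul_comm, pow_mul]; norm_num]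
    exact Real.sqrt_sq (by positivity)
  rw [this, one_div, inv_pow]
  rfl

/-- One level of the chain. -/
theorem level_bound {p q β A Rm : ℝ} {h w f : ℕ} (G : Geo k p q β A Rm h w f) (j : ℕ)
    (ha : 16 * (k : ℝ) ≤ (h : ℝ) / 4 ^ j) {R S i0 j0 : ℕ} (hR : i0 + h ≤ R)
    (hS : ∀ t ≤ w, j0 + cN β h f w j t ≤ S) :
    EE k R S (fun x y => (Finset.range (w + 1)).sup' (by simp) fun t =>
      TT p q x y (i0 + h / 4 ^ (j + 1)) (j0 + cN β h f w (j + 1) t) (i0 + h / 4 ^ j)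
        (j0 + cN β h f w j t)) ≤
      √(h : ℝ) * ((1 / 2) ^ j * (3 / 4 + A * (k + 2) + 1.4 * (2 * j + 1) + (k + 2) / 2)) +
        (4 * k + 10) := by
  have hk := one_le_k k
  set a : ℝ := (h : ℝ) / 4 ^ j with haj
  have ha0 : 0 < a := by linarith
  have hsa : 0 < √a := Real.sqrt_pos.2 ha0
  have hsa' : √a = √(h : ℝ) * (1 / 2) ^ j := sqrt_div_four h j
  set m : ℝ := 3 / 4 ^ (j + 1) * √(h : ℝ) + (4 * k + 10) + A * √(((k : ℝ) + 2) * a) with hm
  have hmain := lse_card (k := k) (R := R) (S := S)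
    ((Finset.range (w + 1)).image fun t => (t / wN w (j + 1), t / wN w j))
    (fun x y => (Finset.range (w + 1)).sup' (by simp) fun t =>
      TT p q x y (i0 + h / 4 ^ (j + 1)) (j0 + cN β h f w (j + 1) t) (i0 + h / 4 ^ j)
        (j0 + cN β h f w j t))
    (fun u x y => TT p q x y (i0 + h / 4 ^ (j + 1)) (j0 + (u.1 * wN w (j + 1) + eN β h f (j + 1)))
      (i0 + h / 4 ^ j) (j0 + (u.2 * wN w j + eN β h f j))) m (((k : ℝ) + 2) / 2)
    ((4 : ℝ) ^ (2 * j + 1)) (1 / √a) (by positivity)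
    (by
      have h1 : ((Finset.range (w + 1)).image fun t => (t / wN w (j + 1), t / wN w j)).card ≤
          (Finset.range (4 ^ (j + 1)) ×ˢ Finset.range (4 ^ j)).card := by
        refine Finset.card_le_card fun u hu => ?_
        obtain ⟨t, ht, rfl⟩ := Finset.mem_image.1 hu
        rw [Finset.mem_range] at ht
        have key : ∀ i : ℕ, t / wN w i < 4 ^ i := by
          intro i
          refine Nat.div_lt_of_lt_mul ?_
          unfold wN
          have := Nat.lt_mul_div_succ w (show 0 < 4 ^ i by positivity)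
          have h2 : (w / 4 ^ i + 1) * 4 ^ i = 4 ^ i * (w / 4 ^ i + 1) := mul_comm _ _
          omega
        exact Finset.mem_product.2 ⟨Finset.mem_range.2 (key _), Finset.mem_range.2 (key _)⟩
      rw [Finset.card_product, Finset.card_range, Finset.card_range, ← pow_add,
        show j + 1 + j = 2 * j + 1 by ring] at h1
      exact_mod_cast h1)
    (by
      intro x y
      obtain ⟨t, ht, h1⟩ := Finset.exists_mem_eq_sup' (s := Finset.range (w + 1)) (by simp)
        (fun t => TT p q x y (i0 + h / 4 ^ (j + 1)) (j0 + cN β h f w (j + 1) t) (i0 + h / 4 ^ j)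
        (j0 + cN β h f w j t))
      refine ⟨(t / wN w (j + 1), t / wN w j), Finset.mem_image.2 ⟨t, ht, rfl⟩, ?_⟩
      rw [h1]
      exact le_rfl)
    (by
      intro u hu
      obtain ⟨t, ht, rfl⟩ := Finset.mem_image.1 hu
      rw [Finset.mem_range] at ht
      obtain ⟨g1, g2, g3, g4, g5⟩ := chain_geo G j (show t ≤ w by omega) ha
      have hc1 : t / wN w (j + 1) * wN w (j + 1) + eN β h f (j + 1) = cN β h f w (j + 1) t := rfl
      have hc2 : t / wN w j * wN w j + eN β h f j = cN β h f w j t := rfl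
      simp only [hc1, hc2]
      have h4 : h / 4 ^ j ≤ h := Nat.div_le_self _ _
      have hS' := hS t (by omega)
      refine (TT_mgf p q (1 / √a) (by omega) (by omega) (by omega) hS').trans
        (Real.exp_le_exp.2 ?_)
      rw [Nat.add_sub_add_left, Nat.add_sub_add_left]
      set r : ℕ := h / 4 ^ j - h / 4 ^ (j + 1) with hr
      set c : ℕ := cN β h f w j t - cN β h f w (j + 1) t with hc
      have er : (((i0 + h / 4 ^ j : ℕ) : ℝ) - ((i0 + h / 4 ^ (j + 1) : ℕ) : ℝ)) = (r : ℝ) := by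
        rw [hr, Nat.cast_sub g1]; push_cast; ring
      have ec : (((j0 + cN β h f w j t : ℕ) : ℝ) - ((j0 + cN β h f w (j + 1) t : ℕ) : ℝ)) =
          (c : ℝ) := by
        rw [hc, Nat.cast_sub g2]; push_cast; ring
      rw [er, ec]
      have h5 : p * (r : ℝ) + q * c - ph k r c ≤ m := by
        have h6 : psi k r c - ph k r c ≤ A * √((r : ℝ) + c) := by
          refine G.hyp r c (g4.trans ?_)
          refine le_trans (mul_le_mul_of_nonneg_left ?_ (by linarith)) G.hRm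
          exact div_le_self (Nat.cast_nonneg _) (one_le_pow₀ (by norm_num))
        have h7 : A * √((r : ℝ) + c) ≤ A * √(((k : ℝ) + 2) * a) :=
          mul_le_mul_of_nonneg_left (Real.sqrt_le_sqrt g4) G.A0
        have h8 : Lam k p q r c = p * r + q * c - psi k r c := by
          unfold Lam; rw [ps_nat]
        rw [h8] at g5
        rw [hm]
        linarith
      have h9 : (1 / √a) * (p * (r : ℝ) + q * c - ph k r c) ≤ (1 / √a) * m :=
        mul_le_mul_of_nonneg_left h5 (by positivity)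
      have h10 : ((r : ℝ) + c) * (1 / √a) ^ 2 / 2 ≤ ((k : ℝ) + 2) / 2 := by
        rw [div_pow, Real.sq_sqrt ha0.le, one_pow]
        have : ((r : ℝ) + c) * (1 / a) ≤ (k : ℝ) + 2 := by
          rw [mul_one_div, div_le_iff₀ ha0]
          exact g4
        linarith
      linarith)
  refine hmain.trans ?_
  have h1 : Real.log ((4 : ℝ) ^ (2 * j + 1)) ≤ 1.4 * (2 * j + 1) := by
    rw [Real.log_pow, show (4 : ℝ) = 2 ^ 2 by norm_num, Real.log_pow]
    have := Real.log_two_lt_d9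
    push_cast
    have h2 : (0 : ℝ) ≤ 2 * (j : ℝ) + 1 := by positivity
    nlinarith
  have h2 : (Real.log ((4 : ℝ) ^ (2 * j + 1)) + ((k : ℝ) + 2) / 2) / (1 / √a) ≤
      √a * (1.4 * (2 * j + 1) + (k + 2) / 2) := by
    rw [div_div_eq_mul_div, div_one, mul_comm]
    exact mul_le_mul_of_nonneg_left (by linarith) hsa.le
  have h3 : √(((k : ℝ) + 2) * a) ≤ (k + 2) * √a := by
    rw [Real.sqrt_mul (by linarith)]
    refine mul_le_mul_of_nonneg_right ?_ hsa.le
    rw [Real.sqrt_le_left (by linarith)]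
    nlinarith
  have h4 : A * √(((k : ℝ) + 2) * a) ≤ A * ((k + 2) * √a) := mul_le_mul_of_nonneg_left h3 G.A0
  have h5 : (3 : ℝ) / 4 ^ (j + 1) * √(h : ℝ) ≤ 3 / 4 * √a := by
    rw [hsa']
    have h6 : (3 : ℝ) / 4 ^ (j + 1) ≤ 3 / 4 * (1 / 2) ^ j := by
      rw [pow_succ, one_div, inv_pow]
      rw [div_le_iff₀ (by positivity)]
      have h7 : (2 : ℝ) ^ j ≤ 4 ^ j := pow_le_pow_left₀ (by norm_num) (by norm_num) _
      have h8 : 3 / 4 * ((2 : ℝ) ^ j)⁻¹ * (4 ^ j * 4) = 3 * (4 ^ j / 2 ^ j) := by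
        field_simp
      rw [h8]
      have h9 : (1 : ℝ) ≤ 4 ^ j / 2 ^ j := by
        rw [le_div_iff₀ (by positivity), one_mul]; exact h7
      linarith
    have := mul_le_mul_of_nonneg_right h6 (Real.sqrt_nonneg (h : ℝ))
    linarith
  have e1 : √(h : ℝ) * ((1 / 2) ^ j * (3 / 4 + A * (k + 2) + 1.4 * (2 * j + 1) + (k + 2) / 2)) =
      √a * (3 / 4 + A * (k + 2) + 1.4 * (2 * j + 1) + (k + 2) / 2) := by rw [hsa']; ring
  rw [e1, hm]
  linarith

theorem sum_half (J : ℕ) : ∑ j ∈ Finset.range J, (1 / 2 : ℝ) ^ j ≤ 2 := by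
  have : ∑ j ∈ Finset.range J, (1 / 2 : ℝ) ^ j = 2 - 2 * (1 / 2) ^ J := by
    induction J with
    | zero => simp
    | succ J ih => rw [Finset.sum_range_succ, ih, pow_succ]; ring
  rw [this]
  have : (0 : ℝ) ≤ (1 / 2) ^ J := by positivity
  linarith

theorem sum_half' (J : ℕ) : ∑ j ∈ Finset.range J, (1 / 2 : ℝ) ^ j * (2 * j + 1) ≤ 6 := by
  have : ∑ j ∈ Finset.range J, (1 / 2 : ℝ) ^ j * (2 * j + 1) = 6 - 2 * (2 * J + 3) * (1 / 2) ^ J := by
    induction J with
    | zero => norm_num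
    | succ J ih => rw [Finset.sum_range_succ, ih, pow_succ]; push_cast; ring
  rw [this]
  have : (0 : ℝ) ≤ 2 * (2 * J + 3) * (1 / 2) ^ J := by positivity
  linarith

/-- The fan estimate. -/
theorem fan {p q β A Rm : ℝ} {h w f : ℕ} (G : Geo k p q β A Rm h w f) {R S i0 j0 : ℕ}
    (hR : i0 + h ≤ R) (hS : j0 + f ≤ S) :
    EE k R S (fun x y => (Finset.range (w + 1)).sup' (by simp) fun t =>
      TT p q x y i0 (j0 + t) (i0 + h) (j0 + f)) ≤ (10 * k + 32 + 2 * (k + 2) * A) * √(h : ℝ) := by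
  have hk := one_le_k k
  have hβ : 0 < β := by
    by_contra hc
    have := G.b1
    have : (k : ℝ) * β ≤ 0 := mul_nonpos_of_nonneg_of_nonpos (by linarith) (not_lt.1 hc)
    linarith
  have hh1 : (0 : ℝ) < h := by nlinarith [G.hh]
  have hh2 : h ≠ 0 := by
    intro h0
    rw [h0] at hh1
    simp at hh1
  have hsh : 0 < √(h : ℝ) := Real.sqrt_pos.2 hh1
  have hs2 : √(h : ℝ) * √(h : ℝ) = h := Real.mul_self_sqrt hh1.le
  have hs16 : 16 * (k : ℝ) ≤ √(h : ℝ) := by
    refine Real.le_sqrt_of_sq_le ?_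
    have := G.hh
    nlinarith
  set J : ℕ := Nat.log 16 h with hJ
  have hJ1 : 16 ^ J ≤ h := Nat.pow_log_le_self 16 hh2
  have hJ2 : h < 16 ^ (J + 1) := Nat.lt_pow_succ_log_self (by norm_num) h
  have hJ1' : ((4 : ℝ) ^ J) ^ 2 ≤ h := by
    have : ((16 : ℝ)) ^ J ≤ h := by exact_mod_cast hJ1
    rw [← pow_mul, mul_comm, pow_mul]
    norm_num
    exact this
  have hJ2' : (h : ℝ) < ((4 : ℝ) ^ (J + 1)) ^ 2 := by
    have : (h : ℝ) < (16 : ℝ) ^ (J + 1) := by exact_mod_cast hJ2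
    rw [← pow_mul, mul_comm, pow_mul]
    norm_num
    exact this
  have hJ3 : (4 : ℝ) ^ J ≤ √(h : ℝ) := Real.le_sqrt_of_sq_le hJ1'
  have hJ4 : √(h : ℝ) < 4 ^ (J + 1) := by
    rw [Real.sqrt_lt' (by positivity)]
    exact hJ2'
  have hgeo : ∀ j ≤ J, 16 * (k : ℝ) ≤ (h : ℝ) / 4 ^ j := by
    intro j hj
    refine hs16.trans ?_
    rw [le_div_iff₀ (by positivity)]
    have h1 : (4 : ℝ) ^ j ≤ 4 ^ J := pow_le_pow_right₀ (by norm_num) hj
    calc √(h : ℝ) * 4 ^ j ≤ √(h : ℝ) * √(h : ℝ) :=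
          mul_le_mul_of_nonneg_left (h1.trans hJ3) hsh.le
      _ = h := hs2
  have hcol0 : ∀ t ≤ w, cN β h f w 0 t = f := by
    intro t ht
    have h1 : t / wN w 0 = 0 := Nat.div_eq_of_lt (by unfold wN; simp; omega)
    unfold cN eN
    rw [h1]
    simp
  have hcolj : ∀ t ≤ w, ∀ j ≤ J, cN β h f w j t ≤ f := by
    intro t ht j
    induction j with
    | zero => intro _; rw [hcol0 t ht]
    | succ j ih =>
      intro hj
      exact (chain_geo G j ht (hgeo j (by omega))).2.1.trans (ih (by omega))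
  -- pointwise chain
  have hchain : ∀ (x : Fin R → Fin k) (y : Fin S → Fin k), ∀ t ≤ w, ∀ j ≤ J,
      TT p q x y i0 (j0 + t) (i0 + h) (j0 + f) ≤
        TT p q x y i0 (j0 + t) (i0 + h / 4 ^ j) (j0 + cN β h f w j t) +
        ∑ i ∈ Finset.range j, TT p q x y (i0 + h / 4 ^ (i + 1)) (j0 + cN β h f w (i + 1) t)
          (i0 + h / 4 ^ i) (j0 + cN β h f w i t) := by
    intro x y t ht j
    induction j with
    | zero =>
      intro _
      rw [hcol0 t ht]
      simp
    | succ j ih =>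
      intro hj
      obtain ⟨g1, g2, g3, _, _⟩ := chain_geo G j ht (hgeo j (by omega))
      obtain ⟨_, _, g3', _, _⟩ := chain_geo G (j + 1) ht (hgeo (j + 1) hj)
      have h1 := ih (by omega)
      have h2 := TT_sub p q x y (i := i0) (i' := i0 + h / 4 ^ (j + 1)) (i'' := i0 + h / 4 ^ j)
        (j := j0 + t) (j' := j0 + cN β h f w (j + 1) t) (j'' := j0 + cN β h f w j t)
        (Nat.le_add_right _ _) (Nat.add_le_add_left g1 _) (by omega) (by omega)
      rw [Finset.sum_range_succ]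
      linarith
  -- the last leg
  have hlast : ∀ (x : Fin R → Fin k) (y : Fin S → Fin k), ∀ t ≤ w,
      TT p q x y i0 (j0 + t) (i0 + h / 4 ^ J) (j0 + cN β h f w J t) ≤ 5 * (k + 2) * √(h : ℝ) := by
    intro x y t ht
    obtain ⟨_, _, g3, _, _⟩ := chain_geo G J ht (hgeo J le_rfl)
    refine (TT_le G.line x y (Nat.le_add_right _ _) (by omega)).trans ?_
    push_cast
    obtain ⟨_, r2⟩ := div_pow_bounds h J
    have u0 := (abs_le.1 (cN_bound G J ht)).2
    have h1 : (h : ℝ) / 4 ^ J ≤ 4 * √(h : ℝ) := by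
      rw [div_le_iff₀ (by positivity)]
      have : √(h : ℝ) * √(h : ℝ) ≤ √(h : ℝ) * 4 ^ (J + 1) :=
        mul_le_mul_of_nonneg_left hJ4.le hsh.le
      rw [hs2, pow_succ] at this
      linarith
    have h2 : (w : ℝ) / 4 ^ J ≤ (1 / 8) * ((h : ℝ) / 4 ^ J) := by
      have h3 : 8 * (w : ℝ) ≤ h := by
        have : (8 : ℝ) * w ≤ 8 * k * w := by
          have : (0 : ℝ) ≤ w := Nat.cast_nonneg _
          nlinarith
        linarith [G.hw]
      have := div_le_div_of_nonneg_right h3 (show (0 : ℝ) ≤ 4 ^ J by positivity)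
      rw [mul_div_assoc] at this
      linarith
    have h3 : β * ((h : ℝ) / 4 ^ J) ≤ k * ((h : ℝ) / 4 ^ J) :=
      mul_le_mul_of_nonneg_right G.b2 (by positivity)
    have h4 : (k : ℝ) * ((h : ℝ) / 4 ^ J) ≤ k * (4 * √(h : ℝ)) :=
      mul_le_mul_of_nonneg_left h1 (by linarith)
    have h5 : (k : ℝ) + 2 ≤ (k + 2) * √(h : ℝ) := by
      have : (1 : ℝ) ≤ √(h : ℝ) := by linarith
      nlinarith
    have := G.b2
    linarith
  -- sup of the chain
  have hsup : ∀ (x : Fin R → Fin k) (y : Fin S → Fin k),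
      ((Finset.range (w + 1)).sup' (by simp) fun t => TT p q x y i0 (j0 + t) (i0 + h) (j0 + f)) ≤
      (∑ i ∈ Finset.range J, (Finset.range (w + 1)).sup' (by simp) fun t =>
        TT p q x y (i0 + h / 4 ^ (i + 1)) (j0 + cN β h f w (i + 1) t)
          (i0 + h / 4 ^ i) (j0 + cN β h f w i t)) + 5 * (k + 2) * √(h : ℝ) := by
    intro x y
    refine Finset.sup'_le _ _ fun t ht => ?_
    rw [Finset.mem_range] at ht
    have h1 := hchain x y t (by omega) J le_rfl
    have h2 := hlast x y t (by omega)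
    have h3 : ∑ i ∈ Finset.range J, TT p q x y (i0 + h / 4 ^ (i + 1))
        (j0 + cN β h f w (i + 1) t) (i0 + h / 4 ^ i) (j0 + cN β h f w i t) ≤
        ∑ i ∈ Finset.range J, (Finset.range (w + 1)).sup' (by simp) fun t =>
        TT p q x y (i0 + h / 4 ^ (i + 1)) (j0 + cN β h f w (i + 1) t)
          (i0 + h / 4 ^ i) (j0 + cN β h f w i t) := by
      refine Finset.sum_le_sum fun i _ => ?_
      exact Finset.le_sup' (fun t => TT p q x y (i0 + h / 4 ^ (i + 1)) (j0 + cN β h f w (i + 1) t)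
          (i0 + h / 4 ^ i) (j0 + cN β h f w i t)) (Finset.mem_range.2 ht)
    linarith
  refine (EE_mono hsup).trans ?_
  rw [EE_add, EE_const, EE_sum]
  have hlev : ∀ i ∈ Finset.range J, EE k R S (fun x y => (Finset.range (w + 1)).sup' (by simp)
      fun t => TT p q x y (i0 + h / 4 ^ (i + 1)) (j0 + cN β h f w (i + 1) t)
          (i0 + h / 4 ^ i) (j0 + cN β h f w i t)) ≤
      √(h : ℝ) * ((1 / 2) ^ i * (3 / 4 + A * (k + 2) + 1.4 * (2 * i + 1) + (k + 2) / 2)) +
        (4 * k + 10) := by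
    intro i hi
    rw [Finset.mem_range] at hi
    refine level_bound G i (hgeo i (by omega)) hR fun t ht => ?_
    have := hcolj t ht i (by omega)
    omega
  refine (add_le_add_left (Finset.sum_le_sum hlev) _).trans ?_
  rw [Finset.sum_add_distrib, Finset.sum_const, Finset.card_range, nsmul_eq_mul, ← Finset.mul_sum]
  have e1 : ∑ i ∈ Finset.range J, ((1 / 2 : ℝ) ^ i * (3 / 4 + A * (k + 2) + 1.4 * (2 * i + 1) +
      (k + 2) / 2)) = (3 / 4 + A * (k + 2) + (k + 2) / 2) * ∑ i ∈ Finset.range J, (1 / 2 : ℝ) ^ i +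
      1.4 * ∑ i ∈ Finset.range J, (1 / 2 : ℝ) ^ i * (2 * i + 1) := by
    rw [Finset.mul_sum, Finset.mul_sum, ← Finset.sum_add_distrib]
    refine Finset.sum_congr rfl fun i _ => ?_
    ring
  have hA := G.A0
  have e2 : ∑ i ∈ Finset.range J, ((1 / 2 : ℝ) ^ i * (3 / 4 + A * (k + 2) + 1.4 * (2 * i + 1) +
      (k + 2) / 2)) ≤ (3 / 4 + A * (k + 2) + (k + 2) / 2) * 2 + 1.4 * 6 := by
    rw [e1]
    have h1 := mul_le_mul_of_nonneg_left (sum_half J)
      (show 0 ≤ 3 / 4 + A * ((k : ℝ) + 2) + (k + 2) / 2 by positivity)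
    have h2 := sum_half' J
    linarith
  have e3 : (J : ℝ) ≤ √(h : ℝ) := by
    have h1 : J < 4 ^ J := Nat.lt_pow_self (by norm_num)
    have h2 : (J : ℝ) ≤ 4 ^ J := by exact_mod_cast h1.le
    exact h2.trans hJ3
  have e4 := mul_le_mul_of_nonneg_left e2 hsh.le
  have e5 : (J : ℝ) * (4 * k + 10) ≤ √(h : ℝ) * (4 * k + 10) :=
    mul_le_mul_of_nonneg_right e3 (by linarith)
  have e6 : √(h : ℝ) * ((3 / 4 + A * (k + 2) + (k + 2) / 2) * 2 + 1.4 * 6) +
      √(h : ℝ) * (4 * k + 10) + 5 * (k + 2) * √(h : ℝ) =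
      (10 * k + 31.9 + 2 * (k + 2) * A) * √(h : ℝ) := by ring
  have e7 : (10 * k + 31.9 + 2 * (k + 2) * A) * √(h : ℝ) ≤
      (10 * k + 32 + 2 * (k + 2) * A) * √(h : ℝ) :=
    mul_le_mul_of_nonneg_right (by linarith) hsh.le
  linarith

end

end Pool.Agent.LCSD
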