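import Pool.Agent.Work.MP_bec1e1_DEF_h67.F2

/-!
# DEF, part G1: reversal of the words and the fan estimate with a common starting point
-/

open Finset BigOperators Filter Topology
open scoped Classical

namespace Pool.Agent.LCSD

open Pool.Agent.LCS13

noncomputable section

variable {k : ℕ}

theorem lp_rev_le {m m' : ℕ → ℕ → Prop} {i j i' j' r c : ℕ}
    (h : ∀ a b, a < r → b < c → m (i + a) (j + b) → m' (i' + (r - 1 - a)) (j' + (c - 1 - b))) :
    lp m i j r c ≤ lp m' i' j' r c := by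
  obtain ⟨f, g, h1, h2⟩ := (LPK.le_lp_iff m (n := lp m i j r c)).1 (le_refl _)
  set n := lp m i j r c with hn
  refine (LPK.le_lp_iff m').2 ⟨fun x => r - 1 - f (n - 1 - x), fun x => c - 1 - g (n - 1 - x), ?_, ?_⟩
  · intro x hx
    obtain ⟨a1, a2, a3⟩ := h1 (n - 1 - x) (by omega)
    refine ⟨?_, ?_, h _ _ a1 a2 a3⟩
    · show r - 1 - f (n - 1 - x) < r
      omega
    · show c - 1 - g (n - 1 - x) < c
      omega
  · intro x y hxy hy
    obtain ⟨b1, b2⟩ := h2 (n - 1 - y) (n - 1 - x) (by omega) (by omega)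
    obtain ⟨a1, a2, _⟩ := h1 (n - 1 - x) (by omega)
    constructor
    · show r - 1 - f (n - 1 - x) < r - 1 - f (n - 1 - y)
      omega
    · show c - 1 - g (n - 1 - x) < c - 1 - g (n - 1 - y)
      omega

theorem wn_rev {R : ℕ} (x : Fin R → Fin k) {a : ℕ} (ha : a < R) :
    wn (fun i => x (Fin.rev i)) a = wn x (R - 1 - a) := by
  unfold wn
  rw [dif_pos ha, dif_pos (show R - 1 - a < R by omega)]
  have h1 : Fin.rev (⟨a, ha⟩ : Fin R) = ⟨R - 1 - a, by omega⟩ := by
    ext
    rw [Fin.val_rev]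
    show R - (a + 1) = R - 1 - a
    omega
  show some ((x (Fin.rev ⟨a, ha⟩) : Fin k) : ℕ) = _
  rw [h1]

theorem lcr_rev {R S : ℕ} (x : Fin R → Fin k) (y : Fin S → Fin k) {i j r c : ℕ} (hi : i + r ≤ R)
    (hj : j + c ≤ S) : lcr (fun a => x (Fin.rev a)) (fun a => y (Fin.rev a)) i j r c =
      lcr x y (R - i - r) (S - j - c) r c := by
  unfold lcr
  congr 1
  refine le_antisymm (lp_rev_le ?_) (lp_rev_le ?_)
  · rintro a b ha hb ⟨z, h1, h2⟩
    rw [wn_rev x (by omega)] at h1
    rw [wn_rev y (by omega)] at h2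
    refine ⟨z, ?_, ?_⟩
    · rw [← h1]; congr 1; omega
    · rw [← h2]; congr 1; omega
  · rintro a b ha hb ⟨z, h1, h2⟩
    refine ⟨z, ?_, ?_⟩
    · rw [wn_rev x (by omega), ← h1]; congr 1; omega
    · rw [wn_rev y (by omega), ← h2]; congr 1; omega

theorem EE_rev {R S : ℕ} (F : (Fin R → Fin k) → (Fin S → Fin k) → ℝ) :
    EE k R S F = EE k R S (fun x y => F (fun a => x (Fin.rev a)) (fun a => y (Fin.rev a))) := by
  unfold EE
  have h1 : ∀ (N : ℕ) (f : (Fin N → Fin k) → ℝ), (𝔼 x : Fin N → Fin k, f x) =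
      𝔼 x : Fin N → Fin k, f (fun a => x (Fin.rev a)) := by
    intro N f
    refine Fintype.expect_equiv (Equiv.arrowCongr Fin.revPerm (Equiv.refl (Fin k))) _ _ fun x => ?_
    congr 1
    funext a
    simp [Equiv.arrowCongr]
  rw [h1 R]
  refine Finset.expect_congr rfl fun x _ => ?_
  exact h1 S _

variable [NeZero k]

/-- The fan estimate with a common starting point. -/
theorem fan_out {p q β A Rm : ℝ} {h w e : ℕ} (G : Geo k p q β A Rm h w (e + w)) {R S i1 j1 : ℕ}
    (hR : i1 + h ≤ R) (hS : j1 + (e + w) ≤ S) :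
    EE k R S (fun x y => (Finset.range (w + 1)).sup' (by simp) fun t =>
      TT p q x y i1 j1 (i1 + h) (j1 + e + t)) ≤ (10 * k + 32 + 2 * (k + 2) * A) * √(h : ℝ) := by
  refine le_trans ?_ (fan G (R := R) (S := S) (i0 := R - i1 - h) (j0 := S - j1 - (e + w))
    (by omega) (by omega))
  rw [EE_rev]
  refine EE_mono fun x y => ?_
  refine Finset.sup'_le _ _ fun t ht => ?_
  rw [Finset.mem_range] at ht
  refine le_trans (le_of_eq ?_) (Finset.le_sup' (fun t => TT p q x y (R - i1 - h)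
    (S - j1 - (e + w) + t) (R - i1 - h + h) (S - j1 - (e + w) + (e + w)))
    (Finset.mem_range.2 (show w - t < w + 1 by omega)))
  unfold TT
  rw [show i1 + h - i1 = h by omega, show j1 + e + t - j1 = e + t by omega,
    lcr_rev x y hR (show j1 + (e + t) ≤ S by omega)]
  have e1 : R - i1 - h + h - (R - i1 - h) = h := by omega
  have e2 : S - j1 - (e + w) + (e + w) - (S - j1 - (e + w) + (w - t)) = e + t := by omega
  have e3 : S - j1 - (e + w) + (w - t) = S - j1 - (e + t) := by omega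
  have e4 : S - j1 - (e + w) + (e + w) = S - j1 - (e + t) + (e + t) := by omega
  rw [e1, e2, e3, e4]
  push_cast
  ring

end

end Pool.Agent.LCSD
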