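import Pool.Agent.Work.MP_bec1e1_DEF_h67.G1

/-!
# DEF, part G2: sums over windows, growth of the loss away from the main direction
-/

open Finset BigOperators Filter Topology
open scoped Classical

namespace Pool.Agent.LCSD

open Pool.Agent.LCS13

noncomputable section

theorem geom_le {c : ℝ} (hc : 0 < c) (n : ℕ) :
    ∑ j ∈ Finset.range n, Real.exp (-c) ^ j ≤ 1 + 1 / c := by
  set ρ := Real.exp (-c) with hρ
  have h0 : 0 < ρ := Real.exp_pos _
  have h1 : ρ ≤ 1 / (1 + c) := by
    rw [hρ, Real.exp_neg, ← one_div]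
    exact one_div_le_one_div_of_le (by linarith) (by linarith [Real.add_one_le_exp c])
  have h2 : c / (1 + c) ≤ 1 - ρ := by
    have : c / (1 + c) = 1 - 1 / (1 + c) := by field_simp; ring
    rw [this]; linarith
  have h3 : 0 < c / (1 + c) := by positivity
  have h4 : (∑ j ∈ Finset.range n, ρ ^ j) * (1 - ρ) ≤ 1 := by
    rw [geom_sum_mul_neg]
    have : 0 ≤ ρ ^ n := by positivity
    linarith
  have h5 : 0 ≤ ∑ j ∈ Finset.range n, ρ ^ j := Finset.sum_nonneg fun _ _ => by positivity
  have h6 : (∑ j ∈ Finset.range n, ρ ^ j) * (c / (1 + c)) ≤ 1 :=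
    (mul_le_mul_of_nonneg_left h2 h5).trans h4
  rw [← le_div_iff₀ h3] at h6
  refine h6.trans (le_of_eq ?_)
  field_simp
  ring

theorem sum_window (I : ℕ) {x0 r c : ℝ} (hx0 : 0 ≤ x0) (hr : 0 ≤ r) (hc : 0 < c) (F : ℕ → ℝ)
    (h1 : ∀ i, F i ≤ 1)
    (h2 : ∀ i : ℕ, r ≤ |(i : ℝ) - x0| → F i ≤ Real.exp (-(c * (|(i : ℝ) - x0| - r)))) :
    ∑ i ∈ Finset.range I, F i ≤ 2 * r + 3 + 2 / c := by
  set ρ := Real.exp (-c) with hρ
  have hρ0 : 0 < ρ := Real.exp_pos _
  have hexp : ∀ (n : ℕ) (z : ℝ), (n : ℝ) ≤ z → Real.exp (-(c * z)) ≤ ρ ^ n := by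
    intro n z hz
    rw [hρ, ← Real.exp_nat_mul]
    refine Real.exp_le_exp.2 ?_
    have := mul_le_mul_of_nonneg_left hz hc.le
    linarith
  set a : ℕ := ⌊x0 + r⌋₊ + 1 with ha
  set b : ℕ := ⌈x0 - r⌉₊ with hb
  have ha1 : x0 + r < a := by rw [ha]; push_cast; exact Nat.lt_floor_add_one _
  have ha2 : (a : ℝ) ≤ x0 + r + 1 := by
    rw [ha]; push_cast
    linarith [Nat.floor_le (show 0 ≤ x0 + r by linarith)]
  have hb1 : x0 - r ≤ b := Nat.le_ceil _
  have hba : b ≤ a := by
    rw [hb, Nat.ceil_le]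
    linarith
  have key : ∀ i, F i ≤ (if i < b then ρ ^ (b - 1 - i) else 0) + (if b ≤ i ∧ i < a then 1 else 0) +
      (if a ≤ i then ρ ^ (i - a) else 0) := by
    intro i
    by_cases c1 : i < b
    · rw [if_pos c1, if_neg (by omega), if_neg (by omega), add_zero, add_zero]
      have c2 : (i : ℝ) < x0 - r := Nat.lt_ceil.1 c1
      have c3 : |(i : ℝ) - x0| = x0 - i := by rw [abs_sub_comm]; exact abs_of_nonneg (by linarith)
      have c4 : (b : ℝ) < x0 - r + 1 := Nat.ceil_lt_add_one (by
        have : (0 : ℝ) ≤ i := Nat.cast_nonneg _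
        linarith)
      refine (h2 i (by rw [c3]; linarith)).trans ?_
      refine hexp _ _ ?_
      rw [c3, Nat.cast_sub (by omega), Nat.cast_sub (by omega)]
      push_cast
      linarith
    · by_cases c2 : i < a
      · rw [if_neg c1, if_pos ⟨by omega, c2⟩, if_neg (by omega)]
        linarith [h1 i]
      · rw [if_neg c1, if_neg (by omega), if_pos (by omega), zero_add, zero_add]
        have c5 : (a : ℝ) ≤ i := by exact_mod_cast (by omega : a ≤ i)
        have c3 : |(i : ℝ) - x0| = i - x0 := abs_of_nonneg (by linarith)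
        refine (h2 i (by rw [c3]; linarith)).trans ?_
        refine hexp _ _ ?_
        rw [c3, Nat.cast_sub (by omega)]
        linarith
  refine (Finset.sum_le_sum fun i _ => key i).trans ?_
  rw [Finset.sum_add_distrib, Finset.sum_add_distrib]
  have s1 : ∑ i ∈ Finset.range I, (if i < b then ρ ^ (b - 1 - i) else 0) ≤ 1 + 1 / c := by
    rw [← Finset.sum_filter]
    calc ∑ i ∈ (Finset.range I).filter (fun i => i < b), ρ ^ (b - 1 - i)
        ≤ ∑ i ∈ Finset.range b, ρ ^ (b - 1 - i) := by
          refine Finset.sum_le_sum_of_subset_of_nonneg ?_ fun i _ _ => by positivity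
          intro i hi
          exact Finset.mem_range.2 (Finset.mem_filter.1 hi).2
      _ = ∑ j ∈ Finset.range b, ρ ^ j := Finset.sum_range_reflect (fun j => ρ ^ j) b
      _ ≤ _ := geom_le hc b
  have s2 : ∑ i ∈ Finset.range I, (if b ≤ i ∧ i < a then (1 : ℝ) else 0) ≤ 2 * r + 1 := by
    rw [← Finset.sum_filter, Finset.sum_const, nsmul_eq_mul, mul_one]
    have c1 : ((Finset.range I).filter (fun i => b ≤ i ∧ i < a)).card ≤ (Finset.Ico b a).card := by
      refine Finset.card_le_card fun i hi => ?_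
      exact Finset.mem_Ico.2 (Finset.mem_filter.1 hi).2
    rw [Nat.card_Ico] at c1
    have c2 : (((Finset.range I).filter (fun i => b ≤ i ∧ i < a)).card : ℝ) ≤ ((a - b : ℕ) : ℝ) := by
      exact_mod_cast c1
    rw [Nat.cast_sub hba] at c2
    linarith
  have s3 : ∑ i ∈ Finset.range I, (if a ≤ i then ρ ^ (i - a) else 0) ≤ 1 + 1 / c := by
    rw [← Finset.sum_filter]
    calc ∑ i ∈ (Finset.range I).filter (fun i => a ≤ i), ρ ^ (i - a)
        ≤ ∑ i ∈ Finset.Ico a (a + I), ρ ^ (i - a) := by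
          refine Finset.sum_le_sum_of_subset_of_nonneg ?_ fun i _ _ => by positivity
          intro i hi
          have := Finset.mem_filter.1 hi
          have := Finset.mem_range.1 this.1
          exact Finset.mem_Ico.2 ⟨by omega, by omega⟩
      _ = ∑ j ∈ Finset.range I, ρ ^ j := by
          rw [Finset.sum_Ico_eq_sum_range]
          simp
      _ ≤ _ := geom_le hc I
  have e : 2 / c = 1 / c + 1 / c := by ring
  linarith

variable {k : ℕ} [NeZero k]

theorem Lam_ray {p q : ℝ} {M B : ℝ} (hM : 0 ≤ M) (hB : 0 ≤ B) (h : Lam k p q M B = 0) {σ : ℝ}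
    (hσ : 0 ≤ σ) : Lam k p q (σ * M) (σ * B) = 0 := by
  rcases hσ.eq_or_lt with h0 | h0
  · rw [← h0, zero_mul, zero_mul]
    have h1 := ps_nat (k := k) 0 0
    have h2 := psi_le_rows (k := k) 0 0
    have h3 := psi_nonneg (k := k) 0 0
    simp only [Nat.cast_zero] at h1 h2
    unfold Lam
    rw [h1]
    linarith
  · rw [Lam_smul h0 hM hB, h, mul_zero]

/-- Growth of the loss on the upper side. -/
theorem growth_up {p q M B h y u : ℝ} (hM : 0 < M) (hB : 0 ≤ B) (h0 : Lam k p q M B = 0)
    (hu : 0 < u) (hy : 0 < y) (huy : u * M ≤ y * h) :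
    Lam k p q h (B / M * h + u) ≤ u / y * Lam k p q M (B + y) := by
  have hσ : 0 ≤ h / M - u / y := by
    rw [sub_nonneg, div_le_div_iff₀ hy hM]
    linarith
  have e1 : h = u / y * M + (h / M - u / y) * M := by field_simp; ring
  have e2 : B / M * h + u = u / y * (B + y) + (h / M - u / y) * B := by field_simp; ring
  have h1 := Lam_subadd (k := k) (p := p) (q := q) (s := u / y * M) (t := u / y * (B + y))
    (s' := (h / M - u / y) * M) (t' := (h / M - u / y) * B) (by positivity) (by positivity)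
    (by positivity) (by positivity)
  rw [← e1, ← e2, Lam_ray hM.le hB h0 hσ, Lam_smul (by positivity) hM.le (by positivity)] at h1
  linarith

/-- Growth of the loss on the lower side. -/
theorem growth_down {p q M B h y u : ℝ} (hM : 0 < M) (hB : 0 ≤ B) (h0 : Lam k p q M B = 0)
    (hu : 0 < u) (hy : 0 < y) (huy : u * M ≤ y * h) (hyB : y ≤ B) :
    Lam k p q h (B / M * h - u) ≤ u / y * Lam k p q M (B - y) := by
  have hσ : 0 ≤ h / M - u / y := by
    rw [sub_nonneg, div_le_div_iff₀ hy hM]
    linarith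
  have e1 : h = u / y * M + (h / M - u / y) * M := by field_simp; ring
  have e2 : B / M * h - u = u / y * (B - y) + (h / M - u / y) * B := by field_simp; ring
  have h1 := Lam_subadd (k := k) (p := p) (q := q) (s := u / y * M) (t := u / y * (B - y))
    (s' := (h / M - u / y) * M) (t' := (h / M - u / y) * B) (by positivity)
    (mul_nonneg (by positivity) (by linarith)) (by positivity) (by positivity)
  rw [← e1, ← e2, Lam_ray hM.le hB h0 hσ, Lam_smul (by positivity) hM.le (by linarith)] at h1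
  linarith

end

end Pool.Agent.LCSD
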