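import Pool.Agent.Work.MP_bec1e1_DEF_h67.G2

/-!
# DEF, part G3: doubling with windows
-/

open Finset BigOperators Filter Topology
open scoped Classical

namespace Pool.Agent.LCSD

open Pool.Agent.LCS13

noncomputable section

variable {k : ℕ} [NeZero k]

/-- Doubling with windows: the log-sum-exp bound. -/
theorem windows {p q β A Rm : ℝ} {h w e N b : ℕ} (G1 : Geo k p q β A Rm h w e)
    (G2 : Geo k p q β A Rm h w (e + w)) (hwe : w ≤ e) {l : ℝ} (hl : 0 < l) :
    -(p * ((2 * N + 2 * h : ℕ) : ℝ) + q * ((2 * b : ℕ) : ℝ) - ph k (2 * N + 2 * h) (2 * b)) ≤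
      Real.log (∑ i ∈ Finset.range (2 * b / (w + 1) + 1), Real.exp (-(l *
        (2 * (p * ((N + h + h : ℕ) : ℝ) + q * ((b + e : ℕ) : ℝ)) -
          (ph k (N + h + h) (e + i * (w + 1)) + ph k (N + h + h) (e + 2 * b - i * (w + 1))))) +
        (2 * l * ((10 * k + 32 + 2 * (k + 2) * A) * √(h : ℝ)) +
        8 * (((2 * N + 2 * h : ℕ) : ℝ) + ((2 * b + 4 * e : ℕ) : ℝ)) * l ^ 2))) / l := by
  set R : ℕ := 2 * N + 2 * h with hR
  set S : ℕ := 2 * b + 4 * e with hS
  set s : ℝ := (10 * k + 32 + 2 * (k + 2) * A) * √(h : ℝ) with hs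
  -- the random variables of a window
  set Z1 : ℕ → (Fin R → Fin k) → (Fin S → Fin k) → ℝ := fun i x y =>
    TT p q x y 0 (2 * e) (N + h + h) (2 * e + i * (w + 1) + e) with hZ1
  set Z2 : ℕ → (Fin R → Fin k) → (Fin S → Fin k) → ℝ := fun i x y =>
    TT p q x y N (e + i * (w + 1)) (2 * N + 2 * h) (2 * e + 2 * b) with hZ2
  set S1 : ℕ → (Fin R → Fin k) → (Fin S → Fin k) → ℝ := fun i x y =>
    (Finset.range (w + 1)).sup' (by simp) fun t =>
      TT p q x y (N + h) (2 * e + i * (w + 1) + t) (N + h + h) (2 * e + i * (w + 1) + e) with hS1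
  set S2 : ℕ → (Fin R → Fin k) → (Fin S → Fin k) → ℝ := fun i x y =>
    (Finset.range (w + 1)).sup' (by simp) fun t =>
      TT p q x y N (e + i * (w + 1)) (N + h) (e + i * (w + 1) + e + t) with hS2
  have hu : ∀ (x : Fin R → Fin k) (y : Fin S → Fin k),
      ∃ i ∈ Finset.range (2 * b / (w + 1) + 1),
        -TT p q x y 0 (2 * e) (2 * N + 2 * h) (2 * e + 2 * b) ≤
          (S1 i x y + S2 i x y) - (Z1 i x y + Z2 i x y) := by
    intro x y
    obtain ⟨g, hg, h1⟩ := LPK.lp_split_row (LCS13.mt (wn x) (wn y)) 0 (2 * e) (N + h) (N + h)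
      (2 * b)
    rw [zero_add] at h1
    refine ⟨g / (w + 1), Finset.mem_range.2 (Nat.lt_succ_of_le (Nat.div_le_div_right hg)), ?_⟩
    set i : ℕ := g / (w + 1) with hi
    set t : ℕ := g % (w + 1) with ht
    have hgt : i * (w + 1) + t = g := by
      rw [hi, ht, mul_comm]; exact Nat.div_add_mod g (w + 1)
    have htw : t < w + 1 := Nat.mod_lt _ (Nat.succ_pos _)
    have e0 : TT p q x y 0 (2 * e) (2 * N + 2 * h) (2 * e + 2 * b) =
        TT p q x y 0 (2 * e) (N + h) (2 * e + g) +
        TT p q x y (N + h) (2 * e + g) (2 * N + 2 * h) (2 * e + 2 * b) := by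
      unfold TT lcr
      rw [show 2 * N + 2 * h - 0 = N + h + (N + h) by omega,
        show 2 * e + 2 * b - 2 * e = 2 * b by omega, h1, show N + h - 0 = N + h by omega,
        show 2 * e + g - 2 * e = g by omega, show 2 * N + 2 * h - (N + h) = N + h by omega,
        show 2 * e + 2 * b - (2 * e + g) = 2 * b - g by omega]
      push_cast
      ring
    have e1 : Z1 i x y ≤ TT p q x y 0 (2 * e) (N + h) (2 * e + g) +
        TT p q x y (N + h) (2 * e + g) (N + h + h) (2 * e + i * (w + 1) + e) :=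
      TT_sub p q x y (by omega) (by omega) (by omega) (by omega)
    have e2 : Z2 i x y ≤ TT p q x y N (e + i * (w + 1)) (N + h) (2 * e + g) +
        TT p q x y (N + h) (2 * e + g) (2 * N + 2 * h) (2 * e + 2 * b) :=
      TT_sub p q x y (by omega) (by omega) (by omega) (by omega)
    have e3 : TT p q x y (N + h) (2 * e + g) (N + h + h) (2 * e + i * (w + 1) + e) ≤ S1 i x y := by
      have := Finset.le_sup' (fun t =>
        TT p q x y (N + h) (2 * e + i * (w + 1) + t) (N + h + h) (2 * e + i * (w + 1) + e))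
        (Finset.mem_range.2 htw)
      refine le_trans (le_of_eq ?_) this
      show _ = TT p q x y (N + h) (2 * e + i * (w + 1) + t) (N + h + h) (2 * e + i * (w + 1) + e)
      rw [show 2 * e + i * (w + 1) + t = 2 * e + g by omega]
    have e4 : TT p q x y N (e + i * (w + 1)) (N + h) (2 * e + g) ≤ S2 i x y := by
      have := Finset.le_sup' (fun t =>
        TT p q x y N (e + i * (w + 1)) (N + h) (e + i * (w + 1) + e + t))
        (Finset.mem_range.2 htw)
      refine le_trans (le_of_eq ?_) this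
      show _ = TT p q x y N (e + i * (w + 1)) (N + h) (e + i * (w + 1) + e + t)
      rw [show e + i * (w + 1) + e + t = 2 * e + g by omega]
    rw [e0]
    linarith
  have hF : ∀ i ∈ Finset.range (2 * b / (w + 1) + 1),
      EE k R S (fun x y => Real.exp (l * ((S1 i x y + S2 i x y) - (Z1 i x y + Z2 i x y)))) ≤
      Real.exp (-(l * (2 * (p * ((N + h + h : ℕ) : ℝ) + q * ((b + e : ℕ) : ℝ)) -
          (ph k (N + h + h) (e + i * (w + 1)) + ph k (N + h + h) (e + 2 * b - i * (w + 1))))) +
        (2 * l * s + 8 * ((R : ℝ) + S) * l ^ 2)) := by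
    intro i hi
    have hi1 : i * (w + 1) ≤ 2 * b := by
      have h1 : i ≤ 2 * b / (w + 1) := Nat.le_of_lt_succ (Finset.mem_range.1 hi)
      calc i * (w + 1) ≤ 2 * b / (w + 1) * (w + 1) := Nat.mul_le_mul_right _ h1
        _ ≤ 2 * b := Nat.div_mul_le_self _ _
    have hL : Lip (fun (x : Fin R → Fin k) (y : Fin S → Fin k) =>
        l * ((S1 i x y + S2 i x y) - (Z1 i x y + Z2 i x y))) (|l| * (1 + 1 + (1 + 1))) := by
      refine Lip.mul ?_ l
      refine Lip.sub (Lip.add ?_ ?_) (Lip.add ?_ ?_)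
      · exact Lip.sup' _ fun t _ => TT_lip p q _ _ _ _
      · exact Lip.sup' _ fun t _ => TT_lip p q _ _ _ _
      · exact TT_lip p q _ _ _ _
      · exact TT_lip p q _ _ _ _
    refine (EE_exp_le hL).trans (Real.exp_le_exp.2 ?_)
    have m1 : EE k R S (fun x y => S1 i x y) ≤ s := by
      simp only [hS1]
      exact fan G1 (by omega) (by omega)
    have m2 : EE k R S (fun x y => S2 i x y) ≤ s := by
      simp only [hS2]
      exact fan_out G2 (by omega) (by omega)
    have m3 : EE k R S (fun x y => Z1 i x y) =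
        p * ((N + h + h : ℕ) : ℝ) + q * ((e : ℝ) + i * (w + 1)) -
          ph k (N + h + h) (e + i * (w + 1)) := by
      simp only [hZ1]
      rw [EE_TT p q (by omega) (by omega) (by omega) (by omega),
        show N + h + h - 0 = N + h + h by omega,
        show 2 * e + i * (w + 1) + e - 2 * e = e + i * (w + 1) by omega]
      push_cast
      ring
    have m4 : EE k R S (fun x y => Z2 i x y) =
        p * ((N + h + h : ℕ) : ℝ) + q * ((e : ℝ) + 2 * b - i * (w + 1)) -
          ph k (N + h + h) (e + 2 * b - i * (w + 1)) := by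
      simp only [hZ2]
      rw [EE_TT p q (by omega) (by omega) (by omega) (by omega),
        show 2 * N + 2 * h - N = N + h + h by omega,
        show 2 * e + 2 * b - (e + i * (w + 1)) = e + 2 * b - i * (w + 1) by omega]
      push_cast
      ring
    rw [EE_const_mul, EE_sub, EE_add, EE_add, m3, m4]
    have e5 : ((R : ℝ) + S) * (|l| * (1 + 1 + (1 + 1))) ^ 2 / 2 = 8 * ((R : ℝ) + S) * l ^ 2 := by
      rw [mul_pow, sq_abs]; ring
    rw [e5]
    have e6 : l * (EE k R S (fun x y => S1 i x y) + EE k R S (fun x y => S2 i x y)) ≤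
        l * (s + s) := mul_le_mul_of_nonneg_left (by linarith) hl.le
    push_cast
    nlinarith
  have hmain := lse (k := k) (R := R) (S := S) (Finset.range (2 * b / (w + 1) + 1))
    (fun x y => -TT p q x y 0 (2 * e) (2 * N + 2 * h) (2 * e + 2 * b))
    (fun i x y => (S1 i x y + S2 i x y) - (Z1 i x y + Z2 i x y))
    (fun i => Real.exp (-(l * (2 * (p * ((N + h + h : ℕ) : ℝ) + q * ((b + e : ℕ) : ℝ)) -
          (ph k (N + h + h) (e + i * (w + 1)) + ph k (N + h + h) (e + 2 * b - i * (w + 1))))) +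
        (2 * l * s + 8 * ((R : ℝ) + S) * l ^ 2))) l hl hu hF
  refine le_trans (le_of_eq ?_) hmain
  have h1 : EE k R S (fun x y => -TT p q x y 0 (2 * e) (2 * N + 2 * h) (2 * e + 2 * b)) =
      -(p * (((2 * N + 2 * h : ℕ) : ℝ) - ((0 : ℕ) : ℝ)) +
        q * (((2 * e + 2 * b : ℕ) : ℝ) - ((2 * e : ℕ) : ℝ)) -
        ph k (2 * N + 2 * h - 0) (2 * e + 2 * b - 2 * e)) := by
    rw [EE_neg, EE_TT p q (by omega) (by omega) (by omega) (by omega)]
  rw [h1, Nat.sub_zero, Nat.add_sub_cancel_left, ← hR]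
  push_cast
  ring

end

end Pool.Agent.LCSD
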