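import Pool.Agent.Work.MP_bec1e1_DEF_h67.G3

/-!
# DEF, part G4: the main recursion step
-/

open Finset BigOperators Filter Topology
open scoped Classical

namespace Pool.Agent.LCSD

open Pool.Agent.LCS13

noncomputable section

variable {k : ℕ} [NeZero k]

/-- Ratio of the scales. -/
def ZZ (k : ℕ) : ℕ := (100 * (k + 2)) ^ 2

/-- The constant of the recursion. -/
def CC (k : ℕ) : ℝ := 20 + Real.log (100 * ZZ k * ((k : ℝ) + 1) ^ 2) / 2

theorem log_one_add {A : ℝ} (hA : 0 ≤ A) : Real.log (1 + A) ≤ A / 16 + 1.85 := by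
  have h1 := Real.log_le_sub_one_of_pos (show 0 < (1 + A) / 16 by positivity)
  rw [Real.log_div (by linarith) (by norm_num), show (16 : ℝ) = 2 ^ 4 by norm_num, Real.log_pow] at h1
  have h2 := Real.log_two_lt_d9
  push_cast at h1
  linarith

/-- The sum over the windows. -/
theorem window_sum {p q l A : ℝ} {M B h w e b : ℕ} (hL : Line k p q)
    (hpq : p * M + q * B = psi k M B) (hM : 0 < M) (hh : 0 < h) (hbe : b + e = B)
    (hl : 0 < l) (hA : 0 ≤ A)
    (hcap : (h : ℝ) < 8 * k * (w + 1) ∨
      √(h : ℝ) < Lam k p q h ((B : ℝ) / M * h + 2 * (w + 1)) ∨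
      √(h : ℝ) < Lam k p q h ((B : ℝ) / M * h - 2 * (w + 1))) :
    ∑ i ∈ Finset.range (2 * b / (w + 1) + 1), Real.exp (-(l *
      (2 * (p * (M : ℝ) + q * (B : ℝ)) - (ph k M (e + i * (w + 1)) +
        ph k M (e + 2 * b - i * (w + 1))) - 2 * (psi k M B - ph k M B)))) ≤
      2 * (2 * M / h + 8 * (psi k M B - ph k M B) / √(h : ℝ)) + 4 + 8 / (l * √(h : ℝ)) +
        16 * k * B / h := by
  have hM' : (0 : ℝ) < M := by exact_mod_cast hM
  have hh' : (0 : ℝ) < h := by exact_mod_cast hh
  have hsh : 0 < √(h : ℝ) := Real.sqrt_pos.2 hh'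
  have hB0 : (0 : ℝ) ≤ B := Nat.cast_nonneg _
  have hk : (1 : ℝ) ≤ k := one_le_k k
  have hbe' : (b : ℝ) + e = B := by exact_mod_cast hbe
  set D : ℝ := psi k M B - ph k M B with hD
  have hD0 : 0 ≤ D := by
    have := ph_le_psi (k := k) M B
    linarith
  set Q : ℕ → ℝ := fun i => 2 * (p * (M : ℝ) + q * (B : ℝ)) - (ph k M (e + i * (w + 1)) +
        ph k M (e + 2 * b - i * (w + 1))) with hQ
  have hw1 : (0 : ℝ) < (w : ℝ) + 1 := by positivity
  have hQD : ∀ i : ℕ, i * (w + 1) ≤ 2 * b → 2 * D ≤ Q i := by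
    intro i hi
    have h1 := ph_conc_split (k := k) M B (e + i * (w + 1)) (by omega)
    rw [show 2 * B - (e + i * (w + 1)) = e + 2 * b - i * (w + 1) by omega] at h1
    simp only [hQ, hD]
    linarith
  have hterm : ∀ i ∈ Finset.range (2 * b / (w + 1) + 1), i * (w + 1) ≤ 2 * b := by
    intro i hi
    have h1 : i ≤ 2 * b / (w + 1) := Nat.le_of_lt_succ (Finset.mem_range.1 hi)
    calc i * (w + 1) ≤ 2 * b / (w + 1) * (w + 1) := Nat.mul_le_mul_right _ h1
      _ ≤ 2 * b := Nat.div_mul_le_self _ _
  have p1 : 0 ≤ 2 * (2 * (M : ℝ) / h + 8 * D / √(h : ℝ)) := by positivity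
  have p2 : 0 ≤ 8 / (l * √(h : ℝ)) := by positivity
  have p3 : 0 ≤ 16 * k * (B : ℝ) / h := by positivity
  by_cases hc : (h : ℝ) < 8 * k * (w + 1)
  · -- few windows
    have h1 : ∑ i ∈ Finset.range (2 * b / (w + 1) + 1), Real.exp (-(l * (Q i - 2 * D))) ≤
        ∑ i ∈ Finset.range (2 * b / (w + 1) + 1), (1 : ℝ) := by
      refine Finset.sum_le_sum fun i hi => ?_
      rw [Real.exp_le_one_iff]
      have := mul_nonneg hl.le (sub_nonneg.2 (hQD i (hterm i hi)))
      linarith
    refine h1.trans ?_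
    rw [Finset.sum_const, Finset.card_range, nsmul_eq_mul, mul_one]
    have h2 : ((2 * b / (w + 1) : ℕ) : ℝ) ≤ (2 * b : ℕ) / ((w + 1 : ℕ) : ℝ) := Nat.cast_div_le
    have h3 : ((2 * b : ℕ) : ℝ) / ((w + 1 : ℕ) : ℝ) ≤ 16 * k * B / h := by
      push_cast
      rw [div_le_div_iff₀ hw1 hh']
      have h4 : (b : ℝ) ≤ B := by
        have : (0 : ℝ) ≤ e := Nat.cast_nonneg _
        linarith
      have h5 : 2 * (b : ℝ) * h ≤ 2 * B * (8 * k * (w + 1)) :=
        mul_le_mul (by linarith) hc.le hh'.le (by positivity)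
      linarith
    push_cast at *
    linarith
  · -- growth
    have hgrow : ∀ y : ℝ, 0 < y → y ≤ B → 2 * ((w : ℝ) + 1) * M ≤ y * h →
        y / (2 * (w + 1)) * √(h : ℝ) ≤ Lam k p q M (B + y) + Lam k p q M (B - y) := by
      intro y hy hyB hyM
      have h0 : Lam k p q M B = 0 := by
        unfold Lam
        rw [ps_nat, hpq, sub_self]
      have n1 := Lam_nonneg hL hM'.le (show 0 ≤ (B : ℝ) + y by linarith)
      have n2 := Lam_nonneg hL hM'.le (show 0 ≤ (B : ℝ) - y by linarith)
      have e1 : ∀ T : ℝ, √(h : ℝ) < 2 * (w + 1) / y * T → y / (2 * (w + 1)) * √(h : ℝ) ≤ T := by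
        intro T hT
        have h3 : y / (2 * (w + 1)) * √(h : ℝ) ≤ y / (2 * (w + 1)) * (2 * (w + 1) / y * T) :=
          mul_le_mul_of_nonneg_left hT.le (by positivity)
        refine h3.trans (le_of_eq ?_)
        field_simp
      rcases hcap with h1 | h1 | h1
      · exact absurd h1 hc
      · have h2 := growth_up (k := k) (p := p) (q := q) (h := h) hM' hB0 h0
          (show (0 : ℝ) < 2 * (w + 1) by positivity) hy hyM
        have := e1 _ (h1.trans_le h2)
        linarith
      · have h2 := growth_down (k := k) (p := p) (q := q) (h := h) hM' hB0 h0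
          (show (0 : ℝ) < 2 * (w + 1) by positivity) hy hyM hyB
        have := e1 _ (h1.trans_le h2)
        linarith
    set x0 : ℝ := b / ((w : ℝ) + 1) with hx0
    set c : ℝ := l * √(h : ℝ) / 4 with hcdef
    have hc0 : 0 < c := by positivity
    have hx00 : 0 ≤ x0 := by positivity
    have hr0 : 0 ≤ 2 * (M : ℝ) / h + 8 * D / √(h : ℝ) := by positivity
    set F : ℕ → ℝ := fun i => if i * (w + 1) ≤ 2 * b then Real.exp (-(l * (Q i - 2 * D))) else 0
      with hF
    have hF1 : ∀ i, F i ≤ 1 := by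
      intro i
      simp only [hF]
      split_ifs with hi
      · rw [Real.exp_le_one_iff]
        have := mul_nonneg hl.le (sub_nonneg.2 (hQD i hi))
        linarith
      · exact zero_le_one
    have hF2 : ∀ i : ℕ, 2 * (M : ℝ) / h + 8 * D / √(h : ℝ) ≤ |(i : ℝ) - x0| →
        F i ≤ Real.exp (-(c * (|(i : ℝ) - x0| - (2 * (M : ℝ) / h + 8 * D / √(h : ℝ))))) := by
      intro i hi
      simp only [hF]
      split_ifs with hi2
      · refine Real.exp_le_exp.2 (neg_le_neg ?_)
        set κ : ℝ := |(i : ℝ) - x0| with hκ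
        set r : ℝ := 2 * (M : ℝ) / h + 8 * D / √(h : ℝ) with hr
        have hκ1 : 2 * (M : ℝ) / h ≤ κ := by
          have : 0 ≤ 8 * D / √(h : ℝ) := by positivity
          linarith
        have hκ2 : 8 * D / √(h : ℝ) ≤ κ := by
          have : 0 ≤ 2 * (M : ℝ) / h := by positivity
          linarith
        rw [div_le_iff₀ hh'] at hκ1
        rw [div_le_iff₀ hsh] at hκ2
        have hκ0 : 0 < κ := by
          by_contra hneg
          have : κ * h ≤ 0 := mul_nonpos_of_nonpos_of_nonneg (not_lt.1 hneg) hh'.le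
          linarith
        set y : ℝ := (w + 1) * κ with hy
        have hy0 : 0 < y := by positivity
        have hi2' : (i : ℝ) * (w + 1) ≤ 2 * b := by exact_mod_cast hi2
        have hyabs : y = |(i : ℝ) * (w + 1) - b| := by
          rw [hy, hκ, ← abs_of_pos hw1, ← abs_mul, abs_of_pos hw1]
          congr 1
          rw [hx0]
          field_simp
        have hyB : y ≤ B := by
          rw [hyabs, abs_le]
          have : (0 : ℝ) ≤ e := Nat.cast_nonneg _
          have : (0 : ℝ) ≤ (i : ℝ) * (w + 1) := by positivity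
          constructor <;> linarith
        have hg := hgrow y hy0 hyB (by
          have := mul_le_mul_of_nonneg_left hκ1 hw1.le
          rw [hy]
          linarith)
        have e2 : y / (2 * (w + 1)) = κ / 2 := by rw [hy]; field_simp
        rw [e2] at hg
        have hQ2 : Lam k p q M (B + y) + Lam k p q M (B - y) ≤ Q i := by
          have c1 : (((e + i * (w + 1) : ℕ)) : ℝ) = B + ((i : ℝ) * (w + 1) - b) := by
            push_cast; linarith
          have c2 : (((e + 2 * b - i * (w + 1) : ℕ)) : ℝ) = B - ((i : ℝ) * (w + 1) - b) := by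
            rw [Nat.cast_sub (by omega)]; push_cast; linarith
          have d1 := ph_le_psi (k := k) M (e + i * (w + 1))
          have d2 := ph_le_psi (k := k) M (e + 2 * b - i * (w + 1))
          rw [← ps_nat, c1] at d1
          rw [← ps_nat, c2] at d2
          have d3 : Lam k p q M (B + y) + Lam k p q M (B - y) =
              Lam k p q M (B + ((i : ℝ) * (w + 1) - b)) +
              Lam k p q M (B - ((i : ℝ) * (w + 1) - b)) := by
            rcases le_total 0 ((i : ℝ) * (w + 1) - b) with hs | hs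
            · rw [hyabs, abs_of_nonneg hs]
            · rw [hyabs, abs_of_nonpos hs, sub_neg_eq_add, ← sub_eq_add_neg, add_comm]
          rw [d3]
          unfold Lam
          simp only [hQ]
          linarith
        have e3 : κ / 4 * √(h : ℝ) ≤ Q i - 2 * D := by linarith
        have e4 := mul_le_mul_of_nonneg_left e3 hl.le
        have e5 : c * (κ - r) ≤ l * (κ / 4 * √(h : ℝ)) := by
          rw [hcdef]
          have : 0 ≤ l * √(h : ℝ) / 4 * r := by positivity
          linarith
        linarith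
      · exact (Real.exp_pos _).le
    have hsum := sum_window (2 * b / (w + 1) + 1) hx00 hr0 hc0 F hF1 hF2
    have h6 : ∑ i ∈ Finset.range (2 * b / (w + 1) + 1), Real.exp (-(l * (Q i - 2 * D))) =
        ∑ i ∈ Finset.range (2 * b / (w + 1) + 1), F i := by
      refine Finset.sum_congr rfl fun i hi => ?_
      simp only [hF]
      rw [if_pos (hterm i hi)]
    rw [h6]
    have h7 : 2 / c = 8 / (l * √(h : ℝ)) := by
      rw [hcdef]; field_simp; norm_num
    rw [h7] at hsum
    linarith

end

end Pool.Agent.LCSD
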