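import Pool.Agent.Work.MP_bec1e1_DEF_h67.G4

/-!
# DEF, part G5: the main recursion step and the theorem
-/

open Finset BigOperators Filter Topology
open scoped Classical

namespace Pool.Agent.LCSD

open Pool.Agent.LCS13

noncomputable section

variable {k : ℕ} [NeZero k]

theorem arith_r5 {Z k A : ℝ} (hk : 1 ≤ k) (hZ : 1 ≤ Z) (hA : 0 ≤ A) :
    2 * (4 * Z + 16 * Z * (k + 1) * A) + 4 + 16 * Z * (k + 1) + 32 * k ^ 2 * Z ≤
      100 * Z * (k + 1) ^ 2 * (1 + A) := by
  have k1 : k + 1 ≤ (k + 1) ^ 2 := by nlinarith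
  have k2 : k ^ 2 ≤ (k + 1) ^ 2 := by nlinarith
  have k3 : 1 ≤ (k + 1) ^ 2 := by nlinarith
  generalize (k + 1) ^ 2 = κ at k1 k2 k3 ⊢
  have z0 : Z * 1 ≤ Z * κ := mul_le_mul_of_nonneg_left k3 (by linarith)
  have z2 : Z * (k + 1) ≤ Z * κ := mul_le_mul_of_nonneg_left k1 (by linarith)
  have z3 : Z * k ^ 2 ≤ Z * κ := mul_le_mul_of_nonneg_left k2 (by linarith)
  have z4 : Z * (k + 1) * A ≤ Z * κ * A := mul_le_mul_of_nonneg_right z2 hA
  have z5 : 0 ≤ Z * κ * A := mul_nonneg (mul_nonneg (by linarith) (by linarith)) hA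
  linarith

theorem sqrt_le_two {Z k : ℝ} (hZ : 1 ≤ Z) (hk : 1 ≤ k) : √(2 * Z * (k + 1)) ≤ 2 * Z * (k + 1) := by
  have h1 : 1 ≤ 2 * Z * (k + 1) := by nlinarith
  rw [Real.sqrt_le_left (by linarith)]
  nlinarith

theorem arith_final {D T V W s X A L : ℝ} (h : 2 * D ≤ T + V + W) (hV : V ≤ 2 * s + 32 * X)
    (hW : W ≤ (L + A / 16 + 1.85) * X) (hs : s ≤ (1 + 0.02 * A) * X) (hT : T ≤ 4 + 1.4143 * A * X)
    (hX : 1 ≤ X) (hA : 0 ≤ A * X) : D ≤ (0.8 * A + (20 + L / 2)) * X := by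
  linarith

theorem main_step {A R : ℝ} {Z : ℕ} (hZr : (Z : ℝ) = (100 * ((k : ℝ) + 2)) ^ 2)
    (hA : 0 ≤ A) (H : Hyp k A (2 * R)) {M B : ℕ} (c1 : M ≤ k * B)
    (c2 : B ≤ k * M) (hM : 512 * k ^ 2 * Z ≤ M) (hR : (M : ℝ) + B ≤ R) :
    psi k M B - ph k M B ≤
      (0.8 * A + (20 + Real.log (100 * Z * ((k : ℝ) + 1) ^ 2) / 2)) * √((M : ℝ) + B) := by
  have hk : (1 : ℝ) ≤ k := one_le_k k
  have hkn : 0 < k := Nat.pos_of_ne_zero (NeZero.ne k)
  have hZpos : 0 < Z := by
    have : (0 : ℝ) < Z := by rw [hZr]; positivity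
    exact_mod_cast this
  have hZ1 : (1 : ℝ) ≤ Z := by exact_mod_cast hZpos
  have hZk : (k : ℝ) + 2 ≤ Z := by rw [hZr]; nlinarith
  have hMpos : 0 < M := lt_of_lt_of_le (by positivity) hM
  have hBpos : 0 < B := by
    rcases Nat.eq_zero_or_pos B with h0 | h0
    · subst h0; omega
    · exact h0
  have hM' : (0 : ℝ) < M := by exact_mod_cast hMpos
  have hB' : (0 : ℝ) < B := by exact_mod_cast hBpos
  obtain ⟨p, q, hL, hpq⟩ := exists_line (k := k) hMpos hBpos
  set h : ℕ := M / Z with hh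
  have g1 : h * Z ≤ M := Nat.div_mul_le_self _ _
  have g2 : M < Z * (h + 1) := Nat.lt_mul_div_succ M hZpos
  have g3 : 512 * k ^ 2 ≤ h := (Nat.le_div_iff_mul_le hZpos).2 hM
  have g1' : (h : ℝ) * Z ≤ M := by exact_mod_cast g1
  have g2' : (M : ℝ) < Z * (h + 1) := by exact_mod_cast g2
  have g3' : 512 * (k : ℝ) ^ 2 ≤ h := by exact_mod_cast g3
  have hk2 : (1 : ℝ) ≤ (k : ℝ) ^ 2 := one_le_pow₀ hk
  have hh512 : (512 : ℝ) ≤ h := by linarith
  have hhpos : 0 < h := by
    have : (0 : ℝ) < h := by linarith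
    exact_mod_cast this
  have hh' : (0 : ℝ) < h := by exact_mod_cast hhpos
  have hMZ : (M : ℝ) ≤ 2 * Z * h := by
    have : (Z : ℝ) * 1 ≤ Z * h := mul_le_mul_of_nonneg_left (by linarith) (by linarith)
    linarith
  have hZ2 : 2 ≤ Z := by
    have : (2 : ℝ) ≤ Z := by linarith
    exact_mod_cast this
  obtain ⟨N, hN⟩ : ∃ N, N + h + h = M := by
    have : h * 2 ≤ h * Z := Nat.mul_le_mul_left _ hZ2
    exact ⟨M - h - h, by omega⟩
  have hN' : (N : ℝ) + h + h = M := by exact_mod_cast hN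
  set β : ℝ := (B : ℝ) / M with hβ
  have b0 : 0 < β := by positivity
  have b1 : 1 ≤ k * β := by
    rw [hβ, ← mul_div_assoc, one_le_div hM']
    exact_mod_cast c1
  have b2 : β ≤ k := by
    rw [hβ, div_le_iff₀ hM']
    exact_mod_cast c2
  have hβM : β * M = B := by rw [hβ]; field_simp
  set e : ℕ := ⌊β * h⌋₊ with he
  have e1 : (e : ℝ) ≤ β * h := Nat.floor_le (by positivity)
  have e2 : β * h - 1 < e := by
    have := Nat.lt_floor_add_one (β * (h : ℝ))
    linarith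
  have hhM : (h : ℝ) ≤ M := by
    have h1 : (0 : ℝ) ≤ N := Nat.cast_nonneg _
    linarith
  have e3 : e ≤ B := by
    have h1 : β * h ≤ β * M := mul_le_mul_of_nonneg_left hhM b0.le
    have : (e : ℝ) ≤ B := by linarith
    exact_mod_cast this
  obtain ⟨b, hb⟩ : ∃ b, b + e = B := ⟨B - e, by omega⟩
  have hb' : (b : ℝ) + e = B := by exact_mod_cast hb
  have L0 : Lam k p q M B = 0 := by
    unfold Lam
    rw [ps_nat, hpq, sub_self]
  have Lh : Lam k p q h (β * h) = 0 := by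
    have := Lam_ray hM'.le hB'.le L0 (show 0 ≤ (h : ℝ) / M by positivity)
    have a1 : (h : ℝ) / M * M = h := by field_simp
    have a2 : (h : ℝ) / M * B = β * h := by rw [hβ]; field_simp
    rw [a1, a2] at this
    exact this
  -- the window width
  set P : ℕ → Prop := fun w => 8 * (k : ℝ) * w ≤ h ∧ Lam k p q h (β * h + 2 * w) ≤ √(h : ℝ) ∧
    Lam k p q h (β * h - 2 * w) ≤ √(h : ℝ) with hP
  have hP0 : P 0 := by
    simp only [hP, Nat.cast_zero, mul_zero, add_zero, sub_zero, Lh]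
    exact ⟨hh'.le, Real.sqrt_nonneg _, Real.sqrt_nonneg _⟩
  set w : ℕ := Nat.findGreatest P h with hw
  have hPw : P w := Nat.findGreatest_spec (Nat.zero_le h) hP0
  obtain ⟨w1, w2, w3⟩ := hPw
  have w4 : 8 * (w : ℝ) ≤ β * h := by
    have h1 : β * (8 * k * w) ≤ β * h := mul_le_mul_of_nonneg_left w1 b0.le
    have h2 : (8 * (w : ℝ)) * 1 ≤ (8 * w) * (k * β) :=
      mul_le_mul_of_nonneg_left b1 (by positivity)
    linarith
  have hw0 : (0 : ℝ) ≤ w := Nat.cast_nonneg _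
  have hnw : (h : ℝ) < 8 * k * (w + 1) ∨
      √(h : ℝ) < Lam k p q h ((B : ℝ) / M * h + 2 * (w + 1)) ∨
      √(h : ℝ) < Lam k p q h ((B : ℝ) / M * h - 2 * (w + 1)) := by
    by_contra hcon
    push Not at hcon
    obtain ⟨n1, n2, n3⟩ := hcon
    have h1 : w + 1 ≤ h := by
      have : (w : ℝ) + 1 ≤ h := by
        have : ((w : ℝ) + 1) * 1 ≤ (w + 1) * (8 * k) :=
          mul_le_mul_of_nonneg_left (by linarith) (by positivity)
        linarith
      exact_mod_cast this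
    have h2 : P (w + 1) := by
      simp only [hP]
      push_cast
      exact ⟨n1, n2, n3⟩
    exact Nat.findGreatest_is_greatest (Nat.lt_succ_self w) h1 h2
  have hwe : w ≤ e := by
    rcases Nat.eq_zero_or_pos w with h0 | h0
    · omega
    · have h1 : (1 : ℝ) ≤ w := by exact_mod_cast h0
      have : (w : ℝ) ≤ e := by linarith
      exact_mod_cast this
  have hwin : ∀ x : ℝ, |x| ≤ 2 * w → Lam k p q h (β * h + x) ≤ √(h : ℝ) := by
    intro x hx
    have := abs_le.1 hx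
    refine Lam_between (t1 := β * h - 2 * w) (t2 := β * h + 2 * w) hh' (by linarith)
      (by linarith) (by linarith) w3 w2
  have hR0 : 0 ≤ R := by linarith
  have G : ∀ f : ℕ, β * h - 1 ≤ f → (f : ℝ) ≤ β * h + w → Geo k p q β A (2 * R) h w f := by
    intro f f1 f2
    refine ⟨hL, b1, b2, w1, by linarith, f1, f2, hwin, hA, H, ?_⟩
    have : ((k : ℝ) + 2) * h ≤ Z * h := mul_le_mul_of_nonneg_right hZk hh'.le
    linarith
  have G1 := G e e2.le (by linarith)
  have G2 := G (e + w) (by push_cast; linarith) (by push_cast; linarith)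
  set n : ℝ := (M : ℝ) + B with hn
  have hn0 : 0 < n := by positivity
  have hsn : 0 < √n := Real.sqrt_pos.2 hn0
  have hsn2 : √n * √n = n := Real.mul_self_sqrt hn0.le
  have hn1 : 1 ≤ √n := by
    rw [Real.one_le_sqrt]
    have : (1 : ℝ) ≤ M := by exact_mod_cast hMpos
    linarith
  set l : ℝ := 1 / √n with hl
  have hl0 : 0 < l := by positivity
  have W := windows (N := N) (b := b) G1 G2 hwe hl0
  rw [hN, hb] at W
  set D : ℝ := psi k M B - ph k M B with hD
  have hD0 : 0 ≤ D := by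
    have := ph_le_psi (k := k) M B
    linarith
  have hDA : D ≤ A * √n := H M B (by linarith)
  set s : ℝ := (10 * k + 32 + 2 * (k + 2) * A) * √(h : ℝ) with hs
  set v : ℝ := 2 * l * s + 8 * (((2 * N + 2 * h : ℕ) : ℝ) + ((2 * b + 4 * e : ℕ) : ℝ)) * l ^ 2
    with hv
  have hS := window_sum (l := l) hL hpq hMpos hhpos hb hl0 hA hnw
  have hsh : 0 < √(h : ℝ) := Real.sqrt_pos.2 hh'
  set K : ℝ := 100 * Z * ((k : ℝ) + 1) ^ 2 * (1 + A) with hK
  -- √n against √h
  have q1 : √n ≤ 2 * Z * (k + 1) * √(h : ℝ) := by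
    have h1 : n ≤ (2 * Z * (k + 1)) * h := by
      have h2 : (B : ℝ) ≤ k * M := by exact_mod_cast c2
      have h3 : n ≤ (k + 1) * M := by linarith
      have h4 : ((k : ℝ) + 1) * M ≤ (k + 1) * (2 * Z * h) :=
        mul_le_mul_of_nonneg_left hMZ (by linarith)
      linarith
    have h5 : √n ≤ √((2 * Z * (k + 1)) * h) := Real.sqrt_le_sqrt h1
    rw [Real.sqrt_mul (by positivity)] at h5
    have h6 : √(2 * (Z : ℝ) * (k + 1)) ≤ 2 * Z * (k + 1) := sqrt_le_two hZ1 hk
    exact h5.trans (mul_le_mul_of_nonneg_right h6 hsh.le)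
  have q2 : 2 * (2 * (M : ℝ) / h + 8 * D / √(h : ℝ)) + 4 + 8 / (l * √(h : ℝ)) +
        16 * k * B / h ≤ K := by
    have r1 : 2 * (M : ℝ) / h ≤ 4 * Z := by
      rw [div_le_iff₀ hh']; linarith
    have r2 : 8 * D / √(h : ℝ) ≤ 16 * Z * (k + 1) * A := by
      rw [div_le_iff₀ hsh]
      have : A * √n ≤ A * (2 * Z * (k + 1) * √(h : ℝ)) := mul_le_mul_of_nonneg_left q1 hA
      linarith
    have r3 : 8 / (l * √(h : ℝ)) ≤ 16 * Z * (k + 1) := by
      rw [div_le_iff₀ (by positivity), hl]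
      have : 16 * (Z : ℝ) * (k + 1) * (1 / √n * √(h : ℝ)) =
          8 * ((2 * Z * (k + 1) * √(h : ℝ)) / √n) := by field_simp; ring
      rw [this]
      have : 1 ≤ (2 * Z * (k + 1) * √(h : ℝ)) / √n := by rw [one_le_div hsn]; exact q1
      linarith
    have r4 : 16 * k * (B : ℝ) / h ≤ 32 * k ^ 2 * Z := by
      rw [div_le_iff₀ hh']
      have h2 : (B : ℝ) ≤ k * M := by exact_mod_cast c2
      have h3 : 16 * (k : ℝ) * B ≤ 16 * k * (k * M) := mul_le_mul_of_nonneg_left h2 (by linarith)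
      have h4 : 16 * (k : ℝ) * (k * M) ≤ 16 * k * (k * (2 * Z * h)) :=
        mul_le_mul_of_nonneg_left (mul_le_mul_of_nonneg_left hMZ (by linarith)) (by linarith)
      linarith
    have r5 := arith_r5 hk hZ1 hA
    rw [hK]
    linarith
  have hKpos : 0 < K := by positivity
  -- the logarithm
  have q3 : Real.log (∑ i ∈ Finset.range (2 * b / (w + 1) + 1), Real.exp (-(l *
        (2 * (p * (M : ℝ) + q * (B : ℝ)) - (ph k M (e + i * (w + 1)) +
          ph k M (e + 2 * b - i * (w + 1))))) + v)) ≤ v - 2 * l * D + Real.log K := by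
    have h1 : ∑ i ∈ Finset.range (2 * b / (w + 1) + 1), Real.exp (-(l *
        (2 * (p * (M : ℝ) + q * (B : ℝ)) - (ph k M (e + i * (w + 1)) +
          ph k M (e + 2 * b - i * (w + 1))))) + v) =
        Real.exp (v - 2 * l * D) * ∑ i ∈ Finset.range (2 * b / (w + 1) + 1), Real.exp (-(l *
      (2 * (p * (M : ℝ) + q * (B : ℝ)) - (ph k M (e + i * (w + 1)) +
        ph k M (e + 2 * b - i * (w + 1))) - 2 * D))) := by
      rw [Finset.mul_sum]
      refine Finset.sum_congr rfl fun i _ => ?_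
      rw [← Real.exp_add]
      congr 1
      ring
    rw [h1, Real.log_mul (Real.exp_pos _).ne' (by
      refine (Finset.sum_pos (fun i _ => Real.exp_pos _) ⟨0, ?_⟩).ne'
      exact Finset.mem_range.2 (Nat.succ_pos _)), Real.log_exp]
    have h2 : Real.log (∑ i ∈ Finset.range (2 * b / (w + 1) + 1), Real.exp (-(l *
      (2 * (p * (M : ℝ) + q * (B : ℝ)) - (ph k M (e + i * (w + 1)) +
        ph k M (e + 2 * b - i * (w + 1))) - 2 * D)))) ≤ Real.log K := by
      refine Real.log_le_log (Finset.sum_pos (fun i _ => Real.exp_pos _) ⟨0, ?_⟩) (hS.trans q2)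
      exact Finset.mem_range.2 (Nat.succ_pos _)
    linarith
  -- the bound for 2 D
  set T : ℝ := p * ((2 * N + 2 * h : ℕ) : ℝ) + q * ((2 * b : ℕ) : ℝ) -
    ph k (2 * N + 2 * h) (2 * b) with hT
  have q4 : 2 * D ≤ T + v / l + Real.log K / l := by
    have h1 : -T ≤ (v - 2 * l * D + Real.log K) / l :=
      W.trans (div_le_div_of_nonneg_right q3 hl0.le)
    have h2 : (v - 2 * l * D + Real.log K) / l = v / l - 2 * D + Real.log K / l := by
      field_simp
    rw [h2] at h1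
    linarith
  have hcN0 : (0 : ℝ) ≤ N := Nat.cast_nonneg _
  have hcb0 : (0 : ℝ) ≤ b := Nat.cast_nonneg _
  have hce0 : (0 : ℝ) ≤ e := Nat.cast_nonneg _
  have q5 : v / l ≤ 2 * s + 32 * √n := by
    have h1 : v / l = 2 * s + 8 * (((2 * N + 2 * h : ℕ) : ℝ) + ((2 * b + 4 * e : ℕ) : ℝ)) * l := by
      rw [hv]; field_simp
    rw [h1]
    have h2 : 8 * (((2 * N + 2 * h : ℕ) : ℝ) + ((2 * b + 4 * e : ℕ) : ℝ)) ≤ 32 * n := by
      push_cast
      rw [hn]
      linarith
    have h3 : 8 * (((2 * N + 2 * h : ℕ) : ℝ) + ((2 * b + 4 * e : ℕ) : ℝ)) * l ≤ 32 * n * l :=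
      mul_le_mul_of_nonneg_right h2 hl0.le
    have h4 : n * l = √n := by
      rw [hl, mul_one_div, div_eq_iff hsn.ne']
      exact hsn2.symm
    have h5 : 32 * n * l = 32 * √n := by rw [mul_assoc, h4]
    linarith
  have q6 : Real.log K / l ≤ (Real.log (100 * Z * ((k : ℝ) + 1) ^ 2) + A / 16 + 1.85) * √n := by
    rw [hl, div_div_eq_mul_div, div_one]
    refine mul_le_mul_of_nonneg_right ?_ hsn.le
    rw [hK, Real.log_mul (by positivity) (by positivity)]
    linarith [log_one_add hA]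
  have q7 : s ≤ (1 + 0.02 * A) * √n := by
    have h1 : √(h : ℝ) * (100 * (k + 2)) ≤ √n := by
      refine Real.le_sqrt_of_sq_le ?_
      rw [mul_pow, Real.sq_sqrt hh'.le, ← hZr]
      linarith
    have h2 : s = ((10 * k + 32) / (100 * (k + 2)) + 0.02 * A) * (√(h : ℝ) * (100 * (k + 2))) := by
      rw [hs]; field_simp; ring
    rw [h2]
    have h3 : (10 * (k : ℝ) + 32) / (100 * (k + 2)) ≤ 1 := by
      rw [div_le_one (by positivity)]; linarith
    have h4 : 0 ≤ (10 * (k : ℝ) + 32) / (100 * (k + 2)) + 0.02 * A := by positivity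
    calc ((10 * (k : ℝ) + 32) / (100 * (k + 2)) + 0.02 * A) * (√(h : ℝ) * (100 * (k + 2)))
        ≤ ((10 * (k : ℝ) + 32) / (100 * (k + 2)) + 0.02 * A) * √n :=
          mul_le_mul_of_nonneg_left h1 h4
      _ ≤ _ := mul_le_mul_of_nonneg_right (by linarith) hsn.le
  have q8 : T ≤ 4 + 1.4143 * A * √n := by
    have h1 : psi k (2 * N + 2 * h) (2 * b) - ph k (2 * N + 2 * h) (2 * b) ≤
        A * √(((2 * N + 2 * h : ℕ) : ℝ) + ((2 * b : ℕ) : ℝ)) := by
      refine H _ _ ?_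
      push_cast
      linarith
    have h2 : √(((2 * N + 2 * h : ℕ) : ℝ) + ((2 * b : ℕ) : ℝ)) ≤ 1.4143 * √n := by
      have h3 : (((2 * N + 2 * h : ℕ) : ℝ) + ((2 * b : ℕ) : ℝ)) ≤ 2 * n := by
        push_cast
        rw [hn]
        linarith
      refine (Real.sqrt_le_sqrt h3).trans ?_
      rw [Real.sqrt_mul (by norm_num)]
      exact mul_le_mul_of_nonneg_right sqrt_two_lt.le hsn.le
    have h4 := mul_le_mul_of_nonneg_left h2 hA
    have h5 : psi k (2 * N + 2 * h) (2 * b) = 2 * psi k (N + h) b := by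
      have := psi_smul (k := k) 2 (N + h) b
      rw [Nat.mul_add] at this
      exact_mod_cast this
    have h6 : Lam k p q ((N + h : ℕ) : ℝ) (b : ℝ) ≤ 2 := by
      have h7 := Lam_lip (k := k) (p := p) (q := q) (s := ((N + h : ℕ) : ℝ)) (t := (b : ℝ))
        (s' := ((N + h : ℕ) : ℝ)) (t' := β * ((N + h : ℕ) : ℝ)) hL (Nat.cast_nonneg _)
        (by positivity)
      have h8 : Lam k p q ((N + h : ℕ) : ℝ) (β * ((N + h : ℕ) : ℝ)) = 0 := by
        have := Lam_ray hM'.le hB'.le L0 (show 0 ≤ ((N + h : ℕ) : ℝ) / M by positivity)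
        have a1 : ((N + h : ℕ) : ℝ) / M * M = ((N + h : ℕ) : ℝ) := by field_simp
        have a2 : ((N + h : ℕ) : ℝ) / M * B = β * ((N + h : ℕ) : ℝ) := by rw [hβ]; field_simp
        rw [a1, a2] at this
        exact this
      rw [h8, sub_self, abs_zero] at h7
      have h9 : |(b : ℝ) - β * ((N + h : ℕ) : ℝ)| ≤ 1 := by
        have h10 : (b : ℝ) - β * ((N + h : ℕ) : ℝ) = β * h - e := by
          push_cast
          have : β * M = β * ((N : ℝ) + h + h) := by rw [hN']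
          rw [hβM] at this
          linarith
        rw [h10, abs_le]
        constructor <;> linarith
      linarith
    have h7 : Lam k p q ((N + h : ℕ) : ℝ) (b : ℝ) = p * ((N + h : ℕ) : ℝ) + q * b -
        psi k (N + h) b := by
      unfold Lam; rw [ps_nat]
    rw [h7] at h6
    rw [hT]
    push_cast at h1 h2 h4 h6 ⊢
    linarith
  exact arith_final q4 q5 q6 q7 q8 hn1 (mul_nonneg hA hsn.le)

/-- The recursion in all directions. -/
theorem step_all : ∃ C : ℝ, 0 ≤ C ∧ ∀ A R : ℝ, 0 ≤ A → Hyp k A (2 * R) → Hyp k (0.8 * A + C) R := by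
  have hk : (1 : ℝ) ≤ k := one_le_k k
  obtain ⟨Z, hZr⟩ : ∃ Z : ℕ, (Z : ℝ) = (100 * ((k : ℝ) + 2)) ^ 2 :=
    ⟨(100 * (k + 2)) ^ 2, by push_cast; ring⟩
  obtain ⟨CK, hCK⟩ : ∃ CK : ℝ, CK = 20 + Real.log (100 * Z * ((k : ℝ) + 1) ^ 2) / 2 := ⟨_, rfl⟩
  refine ⟨max CK 0 + 1 + (512 * k ^ 2 * Z : ℕ), by positivity, ?_⟩
  intro A R hA H r c hrc
  have hmax := le_max_left CK 0
  have hmax0 := le_max_right CK 0
  have hM0 : (0 : ℝ) ≤ ((512 * k ^ 2 * Z : ℕ) : ℝ) := Nat.cast_nonneg _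
  have hs0 : 0 ≤ √((r : ℝ) + c) := Real.sqrt_nonneg _
  have hfin : ∀ X : ℝ, X ≤ 0.8 * A + (max CK 0 + 1 + ((512 * k ^ 2 * Z : ℕ) : ℝ)) →
      X * √((r : ℝ) + c) ≤
      (0.8 * A + (max CK 0 + 1 + ((512 * k ^ 2 * Z : ℕ) : ℝ))) * √((r : ℝ) + c) :=
    fun X hX => mul_le_mul_of_nonneg_right hX hs0
  by_cases h1 : k * r ≤ c
  · have := def_extreme (k := k) h1
    refine this.trans (le_trans (le_of_eq (one_mul _).symm) (hfin 1 ?_))
    linarith
  by_cases h2 : k * c ≤ r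
  · have := def_extreme' (k := k) h2
    refine this.trans (le_trans (le_of_eq (one_mul _).symm) (hfin 1 ?_))
    linarith
  by_cases h3 : 512 * k ^ 2 * Z ≤ r
  · refine (main_step hZr hA H (by omega) (by omega) h3 hrc).trans (hfin _ ?_)
    rw [← hCK]
    linarith
  · have h4 := psi_le_rows (k := k) r c
    have h5 := ph_nonneg (k := k) r c
    have h6 : (r : ℝ) ≤ ((512 * k ^ 2 * Z : ℕ) : ℝ) := by exact_mod_cast (by omega)
    have h7 : 1 ≤ √((r : ℝ) + c) := by
      rw [Real.one_le_sqrt]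
      have : 0 < c := by
        rcases Nat.eq_zero_or_pos c with h0 | h0
        · subst h0; omega
        · exact h0
      have h8 : (1 : ℝ) ≤ c := by exact_mod_cast this
      have h9 : (0 : ℝ) ≤ r := Nat.cast_nonneg _
      linarith
    have h8 : ((512 * k ^ 2 * Z : ℕ) : ℝ) ≤ ((512 * k ^ 2 * Z : ℕ) : ℝ) * √((r : ℝ) + c) :=
      le_mul_of_one_le_right hM0 h7
    have := hfin ((512 * k ^ 2 * Z : ℕ) : ℝ) (by linarith)
    linarith

/-- **DEF**: the defect of the mean is at most `C √n`, in all directions. -/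
theorem def_bound (k : ℕ) [NeZero k] : ∃ C : ℝ, 0 ≤ C ∧ ∀ r c : ℕ,
    psi k r c ≤ ph k r c + C * √((r : ℝ) + c) := by
  obtain ⟨C, hC0, hC⟩ := step_all (k := k)
  refine ⟨5 * C, by positivity, ?_⟩
  have iter : ∀ (m : ℕ) (R : ℝ), 0 ≤ R →
      Hyp k ((0.8 : ℝ) ^ m * (3 * (Real.log (2 * (2 ^ m * R) + 1) + 4)) + 5 * C) R := by
    intro m
    induction m with
    | zero =>
      intro R hR r c hrc
      refine (hyp_apriori (k := k) R r c hrc).trans ?_
      refine mul_le_mul_of_nonneg_right ?_ (Real.sqrt_nonneg _)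
      rw [abs_of_nonneg hR]
      simp only [pow_zero, one_mul]
      linarith
    | succ m ih =>
      intro R hR
      have h1 := ih (2 * R) (by linarith)
      have h0 : 0 ≤ Real.log (2 * (2 ^ m * (2 * R)) + 1) := Real.log_nonneg (by
        have : 0 ≤ 2 * (2 ^ m * (2 * R)) := by positivity
        linarith)
      have h2 := hC _ R (by positivity) h1
      intro r c hrc
      refine (h2 r c hrc).trans (le_of_eq ?_)
      congr 1
      rw [show (2 : ℝ) ^ (m + 1) * R = 2 ^ m * (2 * R) by ring,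
        show (0.8 : ℝ) ^ (m + 1) = 0.8 ^ m * 0.8 from pow_succ _ _]
      ring
  intro r c
  set n : ℝ := (r : ℝ) + c with hn
  have hn0 : 0 ≤ n := by positivity
  have hlim : Tendsto (fun m : ℕ => ((0.8 : ℝ) ^ m * (3 * (((m : ℝ) + 2) + n + 4)) + 5 * C) * √n)
      atTop (𝓝 ((0 + 5 * C) * √n)) := by
    refine (Tendsto.add ?_ tendsto_const_nhds).mul_const _
    have t1 : Tendsto (fun m : ℕ => (m : ℝ) * (0.8 : ℝ) ^ m) atTop (𝓝 0) :=
      tendsto_self_mul_const_pow_of_lt_one (by norm_num) (by norm_num)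
    have t2 : Tendsto (fun m : ℕ => (0.8 : ℝ) ^ m) atTop (𝓝 0) :=
      tendsto_pow_atTop_nhds_zero_of_lt_one (by norm_num) (by norm_num)
    have t3 := (t1.const_mul 3).add (t2.const_mul (3 * (n + 6)))
    rw [mul_zero, mul_zero, add_zero] at t3
    refine t3.congr fun m => ?_
    ring
  have key : ∀ m : ℕ, psi k r c - ph k r c ≤
      ((0.8 : ℝ) ^ m * (3 * (((m : ℝ) + 2) + n + 4)) + 5 * C) * √n := by
    intro m
    refine (iter m n hn0 r c le_rfl).trans ?_
    refine mul_le_mul_of_nonneg_right ?_ (Real.sqrt_nonneg _)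
    have h1 : Real.log (2 * (2 ^ m * n) + 1) ≤ (m + 2) + n := by
      have h2 : 2 * (2 ^ m * n) + 1 ≤ 2 ^ (m + 1) * (n + 1) := by
        rw [pow_succ]
        have : (1 : ℝ) ≤ 2 ^ m := one_le_pow₀ (by norm_num)
        nlinarith
      have h3 : Real.log (2 * (2 ^ m * n) + 1) ≤ Real.log (2 ^ (m + 1) * (n + 1)) :=
        Real.log_le_log (by positivity) h2
      rw [Real.log_mul (by positivity) (by positivity), Real.log_pow] at h3
      have h4 := Real.log_two_lt_d9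
      have h5 := Real.log_le_sub_one_of_pos (show 0 < n + 1 by linarith)
      push_cast at h3
      have h6 : (0 : ℝ) ≤ m := Nat.cast_nonneg _
      nlinarith
    have h7 : (0 : ℝ) ≤ 0.8 ^ m := by positivity
    nlinarith
  have := ge_of_tendsto' hlim key
  linarith

end

end Pool.Agent.LCSD
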