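import Pool.Agent.Work.MP_bec1e1_DEF_h67.G5
import Pool.Agent.Work.MP_bec1e1_pr_h13.LcsDef
import Pool.Agent.Work.MP_bec1e1_pr_h13.VUP
import Pool.Agent.Work.MP_bec1e1_pr_h13.FINAL

/-!
# DEF, part H: second moment around the limit shape, conversion to the uniform measure
-/

open Finset BigOperators Filter Topology
open scoped Classical

namespace Pool.Agent.LCSD

open Pool.Agent.LCS13

noncomputable section

variable {k : ℕ} [NeZero k]

theorem EE_var_le {R S : ℕ} (F : (Fin R → Fin k) → (Fin S → Fin k) → ℝ) (hF : Lip F 1) :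
    EE k R S (fun x y => (F x y - EE k R S F) ^ 2) ≤ (R : ℝ) + S := by
  unfold EE
  rw [Cr.var_decomp F (𝔼 x : Fin R → Fin k, 𝔼 y : Fin S → Fin k, F x y)]
  have h1 : 𝔼 a : Fin R → Fin k, 𝔼 b : Fin S → Fin k,
      (F a b - 𝔼 b' : Fin S → Fin k, F a b') ^ 2 ≤ S := by
    refine Finset.expect_le Finset.univ_nonempty fun a _ => ?_
    exact Cr.var_le S (fun b => F a b) fun i b b' hbb => hF.2 i a b b' hbb
  have h2 : 𝔼 a : Fin R → Fin k, (𝔼 b' : Fin S → Fin k, F a b' -
      𝔼 x : Fin R → Fin k, 𝔼 y : Fin S → Fin k, F x y) ^ 2 ≤ R := by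
    refine Cr.var_le R (fun a => 𝔼 b' : Fin S → Fin k, F a b') ?_
    intro i a a' haa
    rw [← Finset.expect_sub_distrib]
    refine (Finset.abs_expect_le _ _).trans ?_
    exact Finset.expect_le Finset.univ_nonempty fun b _ => hF.1 i a a' b haa
  linarith

/-- Second moment around the limit shape. -/
theorem second_moment (k : ℕ) [NeZero k] : ∃ C : ℝ, ∀ r c : ℕ,
    ph k r c ≤ psi k r c ∧ psi k r c ≤ ph k r c + C * √((r : ℝ) + c) ∧
    EE k r c (fun x y => (lcr x y 0 0 r c - psi k r c) ^ 2) ≤ C * ((r : ℝ) + c) := by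
  obtain ⟨C, hC0, hC⟩ := def_bound k
  refine ⟨C + 2 + 2 * C ^ 2, fun r c => ⟨ph_le_psi r c, ?_, ?_⟩⟩
  · refine (hC r c).trans ?_
    have := Real.sqrt_nonneg ((r : ℝ) + c)
    have : C * √((r : ℝ) + c) ≤ (C + 2 + 2 * C ^ 2) * √((r : ℝ) + c) :=
      mul_le_mul_of_nonneg_right (by nlinarith) this
    linarith
  · have h1 := EE_var_le (k := k) (R := r) (S := c) (fun x y => lcr x y 0 0 r c) (lcr_lip 0 0 r c)
    have h2 : EE k r c (fun x y => (lcr x y 0 0 r c - psi k r c) ^ 2) ≤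
        EE k r c (fun x y => 2 * (lcr x y 0 0 r c - ph k r c) ^ 2 +
          2 * (psi k r c - ph k r c) ^ 2) := by
      refine EE_mono fun x y => ?_
      nlinarith [sq_nonneg ((lcr x y 0 0 r c - ph k r c) + (psi k r c - ph k r c))]
    rw [EE_add, EE_const, EE_const_mul] at h2
    have h3 : EE k r c (fun x y => (lcr x y 0 0 r c - ph k r c) ^ 2) ≤ (r : ℝ) + c := h1
    have h4 : 0 ≤ psi k r c - ph k r c := by linarith [ph_le_psi (k := k) r c]
    have h5 : psi k r c - ph k r c ≤ C * √((r : ℝ) + c) := by linarith [hC r c]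
    have h6 : (psi k r c - ph k r c) ^ 2 ≤ C ^ 2 * ((r : ℝ) + c) := by
      calc (psi k r c - ph k r c) ^ 2 ≤ (C * √((r : ℝ) + c)) ^ 2 := pow_le_pow_left₀ h4 h5 2
        _ = _ := by rw [mul_pow, Real.sq_sqrt (by positivity)]
    have h7 : 0 ≤ C * ((r : ℝ) + c) := by positivity
    nlinarith

/-- The uniform measure on pairs of words. -/
theorem integral_pair (m n : ℕ) (f : (Fin m → Fin k) → (Fin n → Fin k) → ℝ) :
    ∫ p : (Fin m → Fin k) × (Fin n → Fin k), f p.1 p.2
      ∂(PMF.uniformOfFintype ((Fin m → Fin k) × (Fin n → Fin k))).toMeasure = EE k m n f := by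
  rw [FinalB.integral_unif, ← Finset.univ_product_univ, Finset.expect_product]
  rfl

theorem sSup_eq_lcr {m n : ℕ} (a : Fin m → Fin k) (b : Fin n → Fin k) :
    ((sSup {l : ℕ | ∃ w : List (Fin k), w.length = l ∧
      w.Sublist (List.ofFn a) ∧ w.Sublist (List.ofFn b)} : ℕ) : ℝ) = lcr a b 0 0 m n := by
  rw [← stmt_LcsDef k m n a b]
  rfl

end

end Pool.Agent.LCSD
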